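import Mathlib

set_option autoImplicit false

namespace Pool.Agent.Work.MP_081200_nt

/-- The divisor bound. -/
theorem div_bound (ε : ℝ) (hε : 0 < ε) :
    ∃ C : ℝ, 1 ≤ C ∧ ∀ n : ℕ, n ≠ 0 → (n.divisors.card : ℝ) ≤ C * (n : ℝ) ^ ε := by
  have hl2 : 0 < Real.log 2 := Real.log_pos (by norm_num)
  set K : ℝ := 1 + 1 / (ε * Real.log 2) with hK
  have hK1 : 1 ≤ K := by
    rw [hK]; have : 0 < 1 / (ε * Real.log 2) := by positivity
    linarith
  set P₀ : ℕ := ⌈(2 : ℝ) ^ (1 / ε)⌉₊ with hP₀
  refine ⟨K ^ P₀, one_le_pow₀ hK1, ?_⟩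
  intro n hn
  have hkey : ∀ p a : ℕ, p.Prime →
      ((a + 1 : ℕ) : ℝ) ≤ (if p < P₀ then K else 1) * ((p : ℝ) ^ a) ^ ε := by
    intro p a hp
    have hp2 : (2 : ℝ) ≤ p := by exact_mod_cast hp.two_le
    have hp0 : (0 : ℝ) ≤ p := by linarith
    split_ifs with h
    · have h1 : (1 : ℝ) + ε * a * Real.log 2 ≤ ((p : ℝ) ^ a) ^ ε := by
        have h2 : ((2 : ℝ) ^ a) ^ ε ≤ ((p : ℝ) ^ a) ^ ε := by
          apply Real.rpow_le_rpow (by positivity) _ hε.le
          exact pow_le_pow_left₀ (by norm_num) hp2 a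
        refine le_trans ?_ h2
        have h3 : ((2 : ℝ) ^ a) ^ ε = Real.exp (ε * a * Real.log 2) := by
          rw [← Real.rpow_natCast, ← Real.rpow_mul (by norm_num),
            Real.rpow_def_of_pos (by norm_num)]
          congr 1; ring
        rw [h3]
        have := Real.add_one_le_exp (ε * a * Real.log 2)
        linarith
      calc ((a + 1 : ℕ) : ℝ) ≤ K * (1 + ε * a * Real.log 2) := by
            rw [hK]
            push_cast
            have h4 : 1 / (ε * Real.log 2) * (ε * a * Real.log 2) = a := by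
              field_simp
            have h5 : (0 : ℝ) ≤ ε * a * Real.log 2 := by positivity
            have h6 : 0 ≤ 1 / (ε * Real.log 2) := by positivity
            nlinarith
        _ ≤ K * ((p : ℝ) ^ a) ^ ε := mul_le_mul_of_nonneg_left h1 (by linarith)
    · push Not at h
      rw [one_mul]
      have h1 : (2 : ℝ) ^ (1 / ε) ≤ p := by
        have h2 : (2 : ℝ) ^ (1 / ε) ≤ P₀ := Nat.le_ceil _
        have h3 : (P₀ : ℝ) ≤ p := by exact_mod_cast h
        linarith
      have h2 : (2 : ℝ) ≤ (p : ℝ) ^ ε := by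
        calc (2 : ℝ) = ((2 : ℝ) ^ (1 / ε)) ^ ε := by
              rw [← Real.rpow_mul (by norm_num), one_div, inv_mul_cancel₀ hε.ne', Real.rpow_one]
          _ ≤ (p : ℝ) ^ ε := Real.rpow_le_rpow (by positivity) h1 hε.le
      calc ((a + 1 : ℕ) : ℝ) ≤ (2 : ℝ) ^ a := by
            have : a + 1 ≤ 2 ^ a := Nat.lt_two_pow_self
            exact_mod_cast this
        _ ≤ ((p : ℝ) ^ ε) ^ a := pow_le_pow_left₀ (by norm_num) h2 a
        _ = ((p : ℝ) ^ a) ^ ε := by
            rw [← Real.rpow_natCast, ← Real.rpow_mul hp0, mul_comm, Real.rpow_mul hp0,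
              Real.rpow_natCast]
  rw [Nat.card_divisors hn]
  push_cast
  have hn' : (n : ℝ) ^ ε = ∏ p ∈ n.primeFactors, ((p : ℝ) ^ (n.factorization p)) ^ ε := by
    rw [Real.finsetProd_rpow _ _ (fun p _ => by positivity)]
    congr 1
    have := Nat.prod_factorization_pow_eq_self hn
    rw [Finsupp.prod, Nat.support_factorization] at this
    exact_mod_cast this.symm
  calc ∏ p ∈ n.primeFactors, ((n.factorization p : ℝ) + 1)
      ≤ ∏ p ∈ n.primeFactors,
          ((if p < P₀ then K else 1) * ((p : ℝ) ^ (n.factorization p)) ^ ε) := by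
        apply Finset.prod_le_prod
        · intro p _; positivity
        · intro p hp
          have := hkey p (n.factorization p) (Nat.prime_of_mem_primeFactors hp)
          push_cast at this
          exact this
    _ = (∏ p ∈ n.primeFactors, (if p < P₀ then K else 1)) * (n : ℝ) ^ ε := by
        rw [Finset.prod_mul_distrib, hn']
    _ ≤ K ^ P₀ * (n : ℝ) ^ ε := by
        apply mul_le_mul_of_nonneg_right _ (by positivity)
        rw [← Finset.prod_filter, Finset.prod_const]
        apply pow_le_pow_right₀ hK1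
        calc (n.primeFactors.filter (fun p => p < P₀)).card ≤ (Finset.range P₀).card := by
              apply Finset.card_le_card
              intro p hp
              rw [Finset.mem_filter] at hp
              exact Finset.mem_range.2 hp.2
          _ = P₀ := Finset.card_range _

end Pool.Agent.Work.MP_081200_nt
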