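import Pool.Agent.Work.MP_081200_nt.Div

set_option autoImplicit false

open Complex Finset

namespace Pool.Agent.Work.MP_081200_nt

/-- `ZMod.stdAddChar` at `j` -/
lemma norm_one_sub_std (r : ℕ) [NeZero r] (j : ℕ) (hj : 0 < j) (hjr : j < r) :
    ‖1 - ZMod.stdAddChar ((j : ℕ) : ZMod r)‖⁻¹ ≤ (r : ℝ) / 4 * ((j : ℝ)⁻¹ + ((r - j : ℕ) : ℝ)⁻¹) := by
  have hr : (0 : ℝ) < r := by exact_mod_cast (by omega : 0 < r)
  have hj' : (0 : ℝ) < j := by exact_mod_cast hj
  have hjr' : (j : ℝ) < r := by exact_mod_cast hjr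
  have hsub : ((r - j : ℕ) : ℝ) = r - j := by rw [Nat.cast_sub hjr.le]
  have h1 : ZMod.stdAddChar ((j : ℕ) : ZMod r) = exp (I * ((2 * Real.pi * (j / r) : ℝ) : ℂ)) := by
    have := ZMod.stdAddChar_coe (N := r) (j : ℤ)
    rw [Int.cast_natCast] at this
    rw [this]
    congr 1
    push_cast
    ring
  have h2 : ‖1 - ZMod.stdAddChar ((j : ℕ) : ZMod r)‖ = 2 * |Real.sin (Real.pi * (j / r))| := by
    rw [h1, norm_sub_rev, Complex.norm_exp_I_mul_ofReal_sub_one, Real.norm_eq_abs, abs_mul,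
      abs_of_pos (by norm_num : (0:ℝ) < 2)]
    congr 3
    ring
  set t : ℝ := j / r with ht
  have ht0 : 0 < t := by positivity
  have ht1 : t < 1 := by rw [ht, div_lt_one hr]; exact hjr'
  have hi1 : (j : ℝ)⁻¹ = (r : ℝ)⁻¹ * t⁻¹ := by rw [ht]; field_simp
  have hi2 : ((r - j : ℕ) : ℝ)⁻¹ = (r : ℝ)⁻¹ * (1 - t)⁻¹ := by
    rw [hsub, ht, ← mul_inv]; congr 1; field_simp
  rw [h2, hi1, hi2]
  have e : (r : ℝ) / 4 * ((r : ℝ)⁻¹ * t⁻¹ + (r : ℝ)⁻¹ * (1 - t)⁻¹) = (4 * t)⁻¹ + (4 * (1 - t))⁻¹ := by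
    rw [mul_inv, mul_inv]; field_simp
  rw [e]
  have key : ∀ s : ℝ, 0 < s → s ≤ 1 / 2 → 2 * s ≤ Real.sin (Real.pi * s) := by
    intro s hs0 hs1
    have h5 : 2 / Real.pi * (Real.pi * s) ≤ Real.sin (Real.pi * s) :=
      Real.mul_le_sin (by positivity) (by nlinarith [Real.pi_pos])
    have h6 : 2 / Real.pi * (Real.pi * s) = 2 * s := by field_simp
    linarith
  rcases le_total t (1 / 2) with h | h
  · have h5 := key t ht0 h
    have h6 : 4 * t ≤ 2 * |Real.sin (Real.pi * t)| := by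
      have := le_abs_self (Real.sin (Real.pi * t)); linarith
    have h7 : (2 * |Real.sin (Real.pi * t)|)⁻¹ ≤ (4 * t)⁻¹ := inv_anti₀ (by positivity) h6
    have h8 : 0 ≤ (4 * (1 - t))⁻¹ := by
      apply inv_nonneg.2; linarith
    linarith
  · have h5 := key (1 - t) (by linarith) (by linarith)
    have h9 : Real.sin (Real.pi * (1 - t)) = Real.sin (Real.pi * t) := by
      rw [show Real.pi * (1 - t) = Real.pi - Real.pi * t by ring, Real.sin_pi_sub]
    rw [h9] at h5
    have h6 : 4 * (1 - t) ≤ 2 * |Real.sin (Real.pi * t)| := by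
      have := le_abs_self (Real.sin (Real.pi * t)); linarith
    have h7 : (2 * |Real.sin (Real.pi * t)|)⁻¹ ≤ (4 * (1 - t))⁻¹ :=
      inv_anti₀ (by linarith) h6
    have h8 : 0 ≤ (4 * t)⁻¹ := by positivity
    linarith

/-- geometric sums of additive characters -/
lemma norm_geom (r : ℕ) [NeZero r] (x : ZMod r) (hx : x ≠ 0) (a : ℤ) (N : ℕ) :
    ‖∑ k ∈ range N, ZMod.stdAddChar (x * ((a + k : ℤ) : ZMod r))‖
      ≤ 2 * ‖1 - ZMod.stdAddChar x‖⁻¹ := by
  set z : ℂ := ZMod.stdAddChar x with hz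
  have hz1 : z ≠ 1 := by
    intro h
    apply hx
    rw [hz, ← (ZMod.stdAddChar (N := r)).map_zero_eq_one] at h
    exact ZMod.injective_stdAddChar h
  have hznorm : ‖z‖ = 1 := AddChar.norm_apply _ _
  have h1 : ∑ k ∈ range N, ZMod.stdAddChar (x * ((a + k : ℤ) : ZMod r))
      = ZMod.stdAddChar (x * (a : ZMod r)) * ∑ k ∈ range N, z ^ k := by
    rw [mul_sum]
    apply sum_congr rfl
    intro k _
    rw [hz, ← AddChar.map_nsmul_eq_pow, ← AddChar.map_add_eq_mul]
    congr 1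
    push_cast
    rw [nsmul_eq_mul]; ring
  rw [h1, norm_mul, AddChar.norm_apply, one_mul]
  have h2 : (1 - z) * ∑ k ∈ range N, z ^ k = 1 - z ^ N := by
    rw [mul_comm, geom_sum_mul_neg]
  have hne : 1 - z ≠ 0 := sub_ne_zero.2 (Ne.symm hz1)
  have h3 : ∑ k ∈ range N, z ^ k = (1 - z ^ N) * (1 - z)⁻¹ := by
    rw [← h2]; field_simp
  rw [h3, norm_mul, norm_inv]
  apply mul_le_mul_of_nonneg_right _ (by positivity)
  calc ‖1 - z ^ N‖ ≤ ‖(1 : ℂ)‖ + ‖z ^ N‖ := norm_sub_le _ _
    _ = 2 := by rw [norm_pow, hznorm]; norm_num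

/-- second moment of the twisted Gauss sums -/
lemma gauss_second (r : ℕ) [NeZero r] (χ : DirichletCharacter ℂ r) :
    ∑ a : ZMod r, gaussSum χ ((ZMod.stdAddChar (N := r)).mulShift a) *
      (starRingEnd ℂ) (gaussSum χ ((ZMod.stdAddChar (N := r)).mulShift a))
      = r * ∑ x : ZMod r, χ x * (starRingEnd ℂ) (χ x) := by
  classical
  set e := ZMod.stdAddChar (N := r) with he
  have hconj : ∀ y : ZMod r, (starRingEnd ℂ) (e y) = e (-y) := by
    intro y
    rw [AddChar.map_neg_eq_conj]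
  have h3 : ∀ a : ZMod r,
      gaussSum χ (e.mulShift a) * (starRingEnd ℂ) (gaussSum χ (e.mulShift a))
      = ∑ x : ZMod r, ∑ y : ZMod r, χ x * (starRingEnd ℂ) (χ y) * e (a * (x - y)) := by
    intro a
    unfold gaussSum
    rw [map_sum, sum_mul_sum]
    apply sum_congr rfl; intro x _
    apply sum_congr rfl; intro y _
    rw [map_mul, AddChar.mulShift_apply, AddChar.mulShift_apply, hconj]
    have : e (a * (x - y)) = e (a * x) * e (-(a * y)) := by
      rw [← AddChar.map_add_eq_mul]; congr 1; ring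
    rw [this]; ring
  simp only [h3]
  rw [sum_comm]
  rw [mul_sum]
  apply sum_congr rfl; intro x _
  rw [sum_comm]
  have h4 : ∀ y : ZMod r, ∑ a : ZMod r, χ x * (starRingEnd ℂ) (χ y) * e (a * (x - y))
      = χ x * (starRingEnd ℂ) (χ y) * (if x - y = 0 then (r : ℂ) else 0) := by
    intro y
    rw [← mul_sum]
    congr 1
    have := AddChar.sum_mulShift (x - y) (ZMod.isPrimitive_stdAddChar r)
    rw [ZMod.card] at this
    push_cast at this
    rw [← this]
  simp only [h4]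
  rw [sum_eq_single x]
  · rw [sub_self, if_pos rfl]; ring
  · intro y _ hy
    rw [if_neg (sub_ne_zero.2 (Ne.symm hy)), mul_zero]
  · intro h; exact absurd (mem_univ x) h

lemma norm_sq_char (r : ℕ) [NeZero r] (θ : DirichletCharacter ℂ r) (x : ZMod r) :
    ‖θ x‖ ^ 2 = if IsUnit x then 1 else 0 := by
  split_ifs with hx
  · rw [← hx.unit_spec, DirichletCharacter.unit_norm_eq_one]; norm_num
  · rw [MulChar.map_nonunit _ hx]; norm_num

/-- absolute value of Gauss sums -/
lemma norm_gauss (r : ℕ) [NeZero r] (χ : DirichletCharacter ℂ r) (hχ : χ.IsPrimitive) :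
    ‖gaussSum χ (ZMod.stdAddChar (N := r))‖ ^ 2 = r := by
  classical
  have h2 := gauss_second r χ
  set e := ZMod.stdAddChar (N := r) with he
  set G := gaussSum χ e with hG
  have h1 : ∀ a : ZMod r, gaussSum χ (e.mulShift a) = χ⁻¹ a * G :=
    fun a => gaussSum_mulShift_of_isPrimitive e hχ a
  set c : ℝ := ∑ x : ZMod r, (if IsUnit x then (1 : ℝ) else 0) with hc
  have hL : ∑ a : ZMod r, gaussSum χ (e.mulShift a) * (starRingEnd ℂ) (gaussSum χ (e.mulShift a))
      = ((c * ‖G‖ ^ 2 : ℝ) : ℂ) := by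
    have h5 : ∀ a : ZMod r,
        gaussSum χ (e.mulShift a) * (starRingEnd ℂ) (gaussSum χ (e.mulShift a))
        = (((if IsUnit a then (1 : ℝ) else 0) * ‖G‖ ^ 2 : ℝ) : ℂ) := by
      intro a
      rw [h1, Complex.mul_conj, Complex.normSq_eq_norm_sq, norm_mul, mul_pow, norm_sq_char]
    rw [sum_congr rfl (fun a _ => h5 a), ← Complex.ofReal_sum, hc, sum_mul]
  have hR : ∑ x : ZMod r, χ x * (starRingEnd ℂ) (χ x) = ((c : ℝ) : ℂ) := by
    have h6 : ∀ x : ZMod r, χ x * (starRingEnd ℂ) (χ x)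
        = (((if IsUnit x then (1 : ℝ) else 0) : ℝ) : ℂ) := by
      intro x
      rw [Complex.mul_conj, Complex.normSq_eq_norm_sq, norm_sq_char]
    rw [sum_congr rfl (fun a _ => h6 a), ← Complex.ofReal_sum, hc]
  rw [hL, hR] at h2
  have h3 : c * ‖G‖ ^ 2 = r * c := by exact_mod_cast h2
  have hc0 : 0 < c := by
    rw [hc]
    apply sum_pos'
    · intro x _; split_ifs <;> norm_num
    · exact ⟨1, mem_univ _, by rw [if_pos isUnit_one]; norm_num⟩
  have h4 : c * ‖G‖ ^ 2 = c * r := by rw [h3]; ring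
  exact mul_left_cancel₀ hc0.ne' h4

/-- Polya-Vinogradov for primitive characters -/
lemma pv_primitive (r : ℕ) (hr : 2 ≤ r) (χ : DirichletCharacter ℂ r) (hχ : χ.IsPrimitive)
    (a : ℤ) (N : ℕ) :
    ‖∑ k ∈ range N, χ ((a + k : ℤ) : ZMod r)‖ ≤ Real.sqrt r * (1 + Real.log r) := by
  have : NeZero r := ⟨by omega⟩
  have : Fact (1 < r) := ⟨by omega⟩
  set e := ZMod.stdAddChar (N := r) with he
  have hχ' : (χ⁻¹).IsPrimitive := by
    rw [DirichletCharacter.isPrimitive_def, DirichletCharacter.conductor_inv]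
    exact hχ
  set G := gaussSum χ⁻¹ e with hG
  have hGn : ‖G‖ = Real.sqrt r := by
    have := norm_gauss r χ⁻¹ hχ'
    rw [← this, Real.sqrt_sq (norm_nonneg _)]
  have hr0 : (0 : ℝ) < r := by exact_mod_cast (by omega : 0 < r)
  have h1 : ∀ b : ZMod r, χ b * G = ∑ x : ZMod r, χ⁻¹ x * e (x * b) := by
    intro b
    have := gaussSum_mulShift_of_isPrimitive e hχ' b
    rw [inv_inv] at this
    rw [← this]
    unfold gaussSum
    apply sum_congr rfl
    intro x _
    rw [AddChar.mulShift_apply, mul_comm b x]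
  have h2 : (∑ k ∈ range N, χ ((a + k : ℤ) : ZMod r)) * G
      = ∑ x : ZMod r, χ⁻¹ x * ∑ k ∈ range N, e (x * ((a + k : ℤ) : ZMod r)) := by
    rw [sum_mul]
    simp only [h1]
    rw [sum_comm]
    simp only [mul_sum]
  have h3 : ‖∑ k ∈ range N, χ ((a + k : ℤ) : ZMod r)‖ * Real.sqrt r
      ≤ (r : ℝ) * (1 + Real.log r) := by
    rw [← hGn, ← norm_mul, h2]
    calc ‖∑ x : ZMod r, χ⁻¹ x * ∑ k ∈ range N, e (x * ((a + k : ℤ) : ZMod r))‖
        ≤ ∑ x : ZMod r, ‖χ⁻¹ x * ∑ k ∈ range N, e (x * ((a + k : ℤ) : ZMod r))‖ := norm_sum_le _ _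
      _ ≤ ∑ x : ZMod r, (if x = 0 then 0 else 2 * ‖1 - e x‖⁻¹) := by
          apply sum_le_sum
          intro x _
          split_ifs with hx
          · rw [hx, MulChar.map_nonunit _ (by simp), zero_mul, norm_zero]
          · rw [norm_mul]
            calc ‖χ⁻¹ x‖ * ‖∑ k ∈ range N, e (x * ((a + k : ℤ) : ZMod r))‖
                ≤ 1 * (2 * ‖1 - e x‖⁻¹) :=
                  mul_le_mul (DirichletCharacter.norm_le_one _ _) (norm_geom r x hx a N)
                    (norm_nonneg _) (by norm_num)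
              _ = 2 * ‖1 - e x‖⁻¹ := one_mul _
      _ = ∑ j ∈ Ico 1 r, 2 * ‖1 - e ((j : ℕ) : ZMod r)‖⁻¹ := by
          have h4 : ∑ x : ZMod r, (if x = 0 then 0 else 2 * ‖1 - e x‖⁻¹)
              = ∑ j ∈ range r, (if ((j : ℕ) : ZMod r) = 0 then 0
                  else 2 * ‖1 - e ((j : ℕ) : ZMod r)‖⁻¹) := by
            apply sum_bij' (fun (x : ZMod r) _ => x.val) (fun (j : ℕ) _ => ((j : ℕ) : ZMod r))
            · intro x _; exact mem_range.2 (ZMod.val_lt x)
            · intro j _; exact mem_univ _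
            · intro x _; simp
            · intro j hj; exact ZMod.val_natCast_of_lt (mem_range.1 hj)
            · intro x _; simp
          rw [h4, range_eq_Ico, sum_eq_sum_Ico_succ_bot (by omega)]
          rw [Nat.cast_zero, if_pos rfl, zero_add]
          apply sum_congr rfl
          intro j hj
          rw [mem_Ico] at hj
          rw [if_neg]
          intro h
          rw [ZMod.natCast_eq_zero_iff] at h
          have := Nat.le_of_dvd (by omega) h
          omega
      _ ≤ ∑ j ∈ Ico 1 r, 2 * ((r : ℝ) / 4 * ((j : ℝ)⁻¹ + ((r - j : ℕ) : ℝ)⁻¹)) := by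
          apply sum_le_sum
          intro j hj
          rw [mem_Ico] at hj
          exact mul_le_mul_of_nonneg_left (norm_one_sub_std r j (by omega) hj.2) (by norm_num)
      _ = (r : ℝ) / 2 * (∑ j ∈ Ico 1 r, (j : ℝ)⁻¹ + ∑ j ∈ Ico 1 r, ((r - j : ℕ) : ℝ)⁻¹) := by
          rw [← sum_add_distrib, mul_sum]
          apply sum_congr rfl; intro j _; ring
      _ = (r : ℝ) * ∑ j ∈ Ico 1 r, (j : ℝ)⁻¹ := by
          have : ∑ j ∈ Ico 1 r, ((r - j : ℕ) : ℝ)⁻¹ = ∑ j ∈ Ico 1 r, (j : ℝ)⁻¹ := by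
            apply sum_bij' (fun (j : ℕ) _ => r - j) (fun (j : ℕ) _ => r - j)
            · intro j hj; rw [mem_Ico] at hj ⊢; omega
            · intro j hj; rw [mem_Ico] at hj ⊢; omega
            · intro j hj; rw [mem_Ico] at hj; omega
            · intro j hj; rw [mem_Ico] at hj; omega
            · intro j hj; rfl
          rw [this]; ring
      _ ≤ (r : ℝ) * (1 + Real.log r) := by
          apply mul_le_mul_of_nonneg_left _ hr0.le
          have h := harmonic_le_one_add_log r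
          refine le_trans ?_ h
          rw [harmonic]
          push_cast
          rw [sum_Ico_eq_sum_range]
          calc ∑ k ∈ range (r - 1), (((1 + k : ℕ) : ℝ))⁻¹
              ≤ ∑ k ∈ range r, (((1 + k : ℕ) : ℝ))⁻¹ := by
                apply sum_le_sum_of_subset_of_nonneg
                · apply range_subset_range.2; omega
                · intro _ _ _; positivity
            _ = ∑ x ∈ range r, ((x : ℝ) + 1)⁻¹ := by
                apply sum_congr rfl; intro k _; push_cast; rw [add_comm]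
  have hs : 0 < Real.sqrt r := Real.sqrt_pos.2 hr0
  have h4 : (r : ℝ) = Real.sqrt r * Real.sqrt r := (Real.mul_self_sqrt hr0.le).symm
  have h5 : ‖∑ k ∈ range N, χ ((a + k : ℤ) : ZMod r)‖ * Real.sqrt r
      ≤ (Real.sqrt r * (1 + Real.log r)) * Real.sqrt r := by
    refine h3.trans (le_of_eq ?_)
    nth_rewrite 1 [h4]
    ring
  exact le_of_mul_le_mul_right h5 hs

end Pool.Agent.Work.MP_081200_nt
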