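import Pool.Agent.Work.MP_081200_nt.PV

set_option autoImplicit false

open Finset ArithmeticFunction
open scoped ArithmeticFunction.Moebius ArithmeticFunction.zeta

namespace Pool.Agent.Work.MP_081200_nt

lemma sum_moebius (g : ℕ) : ∑ d ∈ g.divisors, ((μ d : ℤ) : ℂ) = if g = 1 then 1 else 0 := by
  have h := congrArg (fun f : ArithmeticFunction ℤ => f g) moebius_mul_coe_zeta
  simp only [coe_mul_zeta_apply, one_apply] at h
  have h2 : ((∑ d ∈ g.divisors, (μ d : ℤ) : ℤ) : ℂ) = ((if g = 1 then 1 else 0 : ℤ) : ℂ) := by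
    rw [h]
  push_cast at h2
  exact h2

lemma char_eq_sum (q : ℕ) [NeZero q] (χ : DirichletCharacter ℂ q) (m : ℤ) :
    χ (m : ZMod q) = ∑ d ∈ q.divisors, if (d : ℤ) ∣ m then
      ((μ d : ℤ) : ℂ) * χ.primitiveCharacter (m : ZMod χ.conductor) else 0 := by
  set g : ℕ := Int.gcd m q with hg
  have hq : q ≠ 0 := NeZero.ne q
  have hfil : q.divisors.filter (fun d : ℕ => (d : ℤ) ∣ m) = g.divisors := by
    ext d
    simp only [mem_filter, Nat.mem_divisors]
    have hg0 : g ≠ 0 := by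
      rw [hg]; intro h
      rw [Int.gcd_eq_zero_iff] at h
      exact hq (by exact_mod_cast h.2)
    constructor
    · rintro ⟨⟨h1, _⟩, h2⟩
      refine ⟨?_, hg0⟩
      have : (d : ℤ) ∣ (Int.gcd m q : ℤ) := Int.dvd_coe_gcd h2 (by exact_mod_cast h1)
      exact_mod_cast this
    · rintro ⟨h1, _⟩
      have h3 : (d : ℤ) ∣ (Int.gcd m q : ℤ) := by exact_mod_cast h1
      refine ⟨⟨?_, hq⟩, h3.trans (Int.gcd_dvd_left ..)⟩
      have := h3.trans (Int.gcd_dvd_right m q)
      exact_mod_cast this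
  rw [← sum_filter, hfil, ← sum_mul, sum_moebius]
  by_cases hc : IsCoprime m q
  · have : g = 1 := by rw [hg]; exact Int.isCoprime_iff_gcd_eq_one.1 hc
    rw [if_pos this, one_mul, DirichletCharacter.primitiveCharacter_apply_of_isCoprime χ hc]
  · have h0 : χ (m : ZMod q) = 0 := (DirichletCharacter.apply_eq_zero_iff χ m).2 hc
    have : g ≠ 1 := by
      rw [hg]; intro h; exact hc (Int.isCoprime_iff_gcd_eq_one.2 h)
    rw [if_neg this, zero_mul, h0]

/-- The terms of an arithmetic progression divisible by `d`. -/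
lemma ap_divisible (d : ℕ) (hd : 0 < d) (u v : ℤ) (hv : 1 ≤ v) (hvd : IsCoprime v (d : ℤ)) (N : ℕ) :
    ∃ (u' : ℤ) (N' : ℕ), N' ≤ N ∧ |u'| ≤ |u| + v ∧ ∀ g : ℤ → ℂ,
      ∑ t ∈ range N, (if (d : ℤ) ∣ u + v * t then g (u + v * t) else 0)
        = ∑ s ∈ range N', g (d * (u' + v * s)) := by
  have hdz : (0 : ℤ) < d := by exact_mod_cast hd
  obtain ⟨a, b, hab⟩ := hvd
  -- `a * v + b * d = 1`
  set t₀ : ℕ := ((-(a * u)) % (d : ℤ)).toNat with ht₀
  have ht0z : (t₀ : ℤ) = (-(a * u)) % (d : ℤ) := by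
    rw [ht₀]; exact Int.toNat_of_nonneg (Int.emod_nonneg _ hdz.ne')
  have ht0lt : t₀ < d := by
    have := Int.emod_lt_of_pos (-(a * u)) hdz
    rw [← ht0z] at this
    exact_mod_cast this
  have hdvd0 : (d : ℤ) ∣ u + v * t₀ := by
    have h1 : (d : ℤ) ∣ (-(a * u)) - t₀ := by
      rw [ht0z]; exact Int.dvd_self_sub_emod
    have h2 : u + v * t₀ = b * u * d - v * ((-(a * u)) - t₀) := by
      have : u = (a * v + b * d) * u := by rw [hab, one_mul]
      linear_combination this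
    rw [h2]
    exact dvd_sub (Dvd.intro_left _ rfl) (Dvd.dvd.mul_left h1 _)
  obtain ⟨u', hu'⟩ := hdvd0
  have hiff : ∀ t : ℕ, (d : ℤ) ∣ u + v * t ↔ (d : ℤ) ∣ (t : ℤ) - t₀ := by
    intro t
    have e : u + v * (t : ℤ) = d * u' + v * ((t : ℤ) - t₀) := by rw [← hu']; ring
    rw [e]
    constructor
    · intro h
      have h1 : (d : ℤ) ∣ v * ((t : ℤ) - t₀) := (dvd_add_right (Dvd.intro _ rfl)).1 h
      have hco : IsCoprime (d : ℤ) v := ⟨b, a, by linarith⟩
      exact hco.dvd_of_dvd_mul_left h1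
    · intro h
      exact dvd_add (Dvd.intro _ rfl) (Dvd.dvd.mul_left h _)
  set N' : ℕ := (N + (d - 1 - t₀)) / d with hN'
  have hlt : ∀ s : ℕ, s < N' ↔ t₀ + d * s < N := by
    intro s
    rw [hN', Nat.lt_iff_add_one_le, Nat.le_div_iff_mul_le hd]
    have : (s + 1) * d = d * s + d := by ring
    rw [this]
    omega
  refine ⟨u', N', ?_, ?_, ?_⟩
  · by_contra hcon
    push Not at hcon
    have h1 := (hlt N).1 hcon
    have : N ≤ d * N := Nat.le_mul_of_pos_left _ hd
    omega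
  · have h1 : (d : ℤ) * |u'| = |u + v * t₀| := by
      rw [hu', abs_mul, abs_of_pos hdz]
    have h2 : |u + v * t₀| ≤ |u| + v * t₀ := by
      calc |u + v * t₀| ≤ |u| + |v * t₀| := abs_add_le _ _
        _ = |u| + v * t₀ := by
            rw [abs_of_nonneg (mul_nonneg (by omega) (by positivity) : (0 : ℤ) ≤ v * t₀)]
    have h3 : (t₀ : ℤ) ≤ d := by exact_mod_cast ht0lt.le
    have h4 : v * t₀ ≤ v * d := mul_le_mul_of_nonneg_left h3 (by omega)
    have h5 : |u| ≤ d * |u| := by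
      have := abs_nonneg u
      nlinarith
    have h6 : (d : ℤ) * |u'| ≤ d * (|u| + v) := by
      rw [h1]; nlinarith
    exact le_of_mul_le_mul_left h6 hdz
  · intro g
    rw [← sum_filter]
    symm
    apply sum_bij' (fun (s : ℕ) _ => t₀ + d * s) (fun (t : ℕ) _ => (t - t₀) / d)
    · intro s hs
      rw [mem_range] at hs
      rw [mem_filter, mem_range]
      refine ⟨(hlt s).1 hs, ?_⟩
      rw [hiff]
      push_cast
      exact ⟨s, by ring⟩
    · intro t ht
      rw [mem_filter, mem_range, hiff] at ht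
      obtain ⟨ht1, ⟨c, hc⟩⟩ := ht
      have hc0 : 0 ≤ c := by
        by_contra hcon
        push Not at hcon
        have h7 : (d : ℤ) * c ≤ -d := by nlinarith
        have h8 : (t₀ : ℤ) < d := by exact_mod_cast ht0lt
        have h9 : (0 : ℤ) ≤ t := by positivity
        omega
      obtain ⟨c', rfl⟩ := Int.eq_ofNat_of_zero_le hc0
      have h10 : t = t₀ + d * c' := by
        have : (t : ℤ) = t₀ + d * (c' : ℤ) := by linarith
        exact_mod_cast this
      rw [mem_range, hlt, h10, Nat.add_sub_cancel_left, Nat.mul_div_cancel_left _ hd, ← h10]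
      exact ht1
    · intro s _
      rw [Nat.add_sub_cancel_left, Nat.mul_div_cancel_left _ hd]
    · intro t ht
      rw [mem_filter, mem_range, hiff] at ht
      obtain ⟨ht1, ⟨c, hc⟩⟩ := ht
      have hc0 : 0 ≤ c := by
        by_contra hcon
        push Not at hcon
        have h7 : (d : ℤ) * c ≤ -d := by nlinarith
        have h8 : (t₀ : ℤ) < d := by exact_mod_cast ht0lt
        have h9 : (0 : ℤ) ≤ t := by positivity
        omega
      obtain ⟨c', rfl⟩ := Int.eq_ofNat_of_zero_le hc0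
      have h10 : t = t₀ + d * c' := by
        have : (t : ℤ) = t₀ + d * (c' : ℤ) := by linarith
        exact_mod_cast this
      rw [h10, Nat.add_sub_cancel_left, Nat.mul_div_cancel_left _ hd]
    · intro s _
      congr 1
      push_cast
      have : u = d * u' - v * t₀ := by linarith
      rw [this]; ring

/-- From primitive characters to all characters, along arithmetic progressions. -/
lemma imprim (q : ℕ) [NeZero q] (χ : DirichletCharacter ℂ q) (u v : ℤ) (hv : 1 ≤ v)
    (hvq : IsCoprime v (q : ℤ)) (N : ℕ) (B : ℝ)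
    (hB : ∀ (u' : ℤ) (N' : ℕ), N' ≤ N → |u'| ≤ |u| + v →
      ‖∑ s ∈ range N', χ.primitiveCharacter ((u' + v * s : ℤ) : ZMod χ.conductor)‖ ≤ B) :
    ‖∑ t ∈ range N, χ ((u + v * t : ℤ) : ZMod q)‖ ≤ (q.divisors.card : ℝ) * B := by
  have h1 : ∑ t ∈ range N, χ ((u + v * t : ℤ) : ZMod q)
      = ∑ d ∈ q.divisors, ((μ d : ℤ) : ℂ) * ∑ t ∈ range N,
        (if (d : ℤ) ∣ u + v * t then
          χ.primitiveCharacter ((u + v * t : ℤ) : ZMod χ.conductor) else 0) := by
    have : ∀ t ∈ range N, χ ((u + v * t : ℤ) : ZMod q) = _ := fun t _ =>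
      char_eq_sum q χ (u + v * t)
    rw [sum_congr rfl this, sum_comm]
    apply sum_congr rfl
    intro d _
    rw [mul_sum]
    apply sum_congr rfl
    intro t _
    split_ifs <;> simp
  rw [h1]
  calc ‖∑ d ∈ q.divisors, ((μ d : ℤ) : ℂ) * ∑ t ∈ range N,
        (if (d : ℤ) ∣ u + v * t then
          χ.primitiveCharacter ((u + v * t : ℤ) : ZMod χ.conductor) else 0)‖
      ≤ ∑ d ∈ q.divisors, B := by
        apply norm_sum_le_of_le
        intro d hd
        have hdq := Nat.dvd_of_mem_divisors hd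
        have hd0 : 0 < d := Nat.pos_of_mem_divisors hd
        have hvd : IsCoprime v (d : ℤ) := by
          obtain ⟨c, hc⟩ := hdq
          rw [hc] at hvq
          push_cast at hvq
          exact hvq.of_mul_right_left
        obtain ⟨u', N', hN', hu', hg⟩ := ap_divisible d hd0 u v hv hvd N
        have h2 := hg (fun m => χ.primitiveCharacter (m : ZMod χ.conductor))
        rw [h2, norm_mul]
        have h3 : ∑ s ∈ range N',
            χ.primitiveCharacter (((d : ℤ) * (u' + v * s) : ℤ) : ZMod χ.conductor)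
            = χ.primitiveCharacter ((d : ℤ) : ZMod χ.conductor) *
              ∑ s ∈ range N', χ.primitiveCharacter ((u' + v * s : ℤ) : ZMod χ.conductor) := by
          rw [mul_sum]
          apply sum_congr rfl
          intro s _
          rw [← map_mul]
          congr 1
          push_cast; ring
        rw [h3, norm_mul]
        have h4 : ‖((μ d : ℤ) : ℂ)‖ ≤ 1 := by
          rw [Complex.norm_intCast]
          exact_mod_cast abs_moebius_le_one
        have h5 := DirichletCharacter.norm_le_one χ.primitiveCharacter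
          ((d : ℤ) : ZMod χ.conductor)
        have h6 := hB u' N' hN' hu'
        have h7 : 0 ≤ B := (norm_nonneg _).trans h6
        calc ‖((μ d : ℤ) : ℂ)‖ * (‖χ.primitiveCharacter ((d : ℤ) : ZMod χ.conductor)‖ *
              ‖∑ s ∈ range N', χ.primitiveCharacter ((u' + v * s : ℤ) : ZMod χ.conductor)‖)
            ≤ 1 * (1 * B) := by
              apply mul_le_mul h4 _ (by positivity) (by norm_num)
              exact mul_le_mul h5 h6 (norm_nonneg _) (by norm_num)
          _ = B := by ring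
    _ = (q.divisors.card : ℝ) * B := by rw [sum_const, nsmul_eq_mul]

/-- Polya-Vinogradov, in the form that is needed. -/
lemma pv (ε : ℝ) (hε : 0 < ε) : ∃ C : ℝ, 1 ≤ C ∧ ∀ (r : ℕ) (χ : DirichletCharacter ℂ r), r ≠ 0 →
    χ ≠ 1 → ∀ (a : ℤ) (N : ℕ),
      ‖∑ k ∈ range N, χ ((a + k : ℤ) : ZMod r)‖ ≤ C * (r : ℝ) ^ (1 / 2 + ε) := by
  obtain ⟨C₁, hC₁, hd⟩ := div_bound (ε / 2) (by positivity)
  refine ⟨C₁ * (1 + 2 / ε), ?_, ?_⟩
  · have : 0 < 2 / ε := by positivity
    nlinarith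
  intro r χ hr hχ a N
  have : NeZero r := ⟨hr⟩
  have hr1 : (1 : ℝ) ≤ r := by exact_mod_cast Nat.one_le_iff_ne_zero.2 hr
  have hf0 := χ.conductor_ne_zero
  have hf1 : χ.conductor ≠ 1 := fun h => hχ (χ.eq_one_iff_conductor_eq_one.2 h)
  have hfr : χ.conductor ≤ r := Nat.le_of_dvd (by omega) χ.conductor_dvd_level
  have hlog : Real.log r ≤ 2 / ε * (r : ℝ) ^ (ε / 2) := by
    have := Real.log_le_rpow_div (by linarith : (0:ℝ) ≤ r) (by positivity : 0 < ε / 2)
    calc Real.log r ≤ (r : ℝ) ^ (ε / 2) / (ε / 2) := this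
      _ = 2 / ε * (r : ℝ) ^ (ε / 2) := by field_simp
  have hone : (1 : ℝ) ≤ (r : ℝ) ^ (ε / 2) := Real.one_le_rpow hr1 (by positivity)
  have h1 := imprim r χ a 1 le_rfl isCoprime_one_left N
    (Real.sqrt r * ((1 + 2 / ε) * (r : ℝ) ^ (ε / 2))) (by
      intro u' N' _ _
      have h2 := pv_primitive χ.conductor (by omega) χ.primitiveCharacter
        χ.primitiveCharacter_isPrimitive u' N'
      have h3 : ∑ s ∈ range N', χ.primitiveCharacter ((u' + 1 * s : ℤ) : ZMod χ.conductor)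
          = ∑ s ∈ range N', χ.primitiveCharacter ((u' + s : ℤ) : ZMod χ.conductor) := by
        simp only [one_mul]
      rw [h3]
      refine h2.trans ?_
      have hfr' : (χ.conductor : ℝ) ≤ r := by exact_mod_cast hfr
      have hf1' : (1 : ℝ) ≤ χ.conductor := by exact_mod_cast Nat.one_le_iff_ne_zero.2 hf0
      apply mul_le_mul (Real.sqrt_le_sqrt hfr') _ _ (Real.sqrt_nonneg _)
      · have h4 : Real.log χ.conductor ≤ Real.log r := Real.log_le_log (by linarith) hfr'
        nlinarith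
      · have := Real.log_nonneg hf1'
        linarith)
  have h2 : ∑ t ∈ range N, χ ((a + 1 * t : ℤ) : ZMod r) = ∑ k ∈ range N, χ ((a + k : ℤ) : ZMod r) := by
    simp only [one_mul]
  rw [h2] at h1
  refine h1.trans ?_
  have h3 := hd r hr
  have h4 : Real.sqrt r = (r : ℝ) ^ (1 / 2 : ℝ) := Real.sqrt_eq_rpow _
  have h5 : (r : ℝ) ^ (1 / 2 + ε) = (r : ℝ) ^ (1 / 2 : ℝ) * ((r : ℝ) ^ (ε / 2) * (r : ℝ) ^ (ε / 2)) := by
    rw [← Real.rpow_add (by linarith), ← Real.rpow_add (by linarith)]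
    congr 1; ring
  rw [h5, h4]
  have h6 : (0 : ℝ) ≤ (r : ℝ) ^ (1 / 2 : ℝ) := by positivity
  have h7 : (0 : ℝ) ≤ (r : ℝ) ^ (ε / 2) := by positivity
  calc (r.divisors.card : ℝ) * ((r : ℝ) ^ (1 / 2 : ℝ) * ((1 + 2 / ε) * (r : ℝ) ^ (ε / 2)))
      ≤ (C₁ * (r : ℝ) ^ (ε / 2)) * ((r : ℝ) ^ (1 / 2 : ℝ) * ((1 + 2 / ε) * (r : ℝ) ^ (ε / 2))) := by
        apply mul_le_mul_of_nonneg_right h3; positivity
    _ = C₁ * (1 + 2 / ε) * ((r : ℝ) ^ (1 / 2 : ℝ) * ((r : ℝ) ^ (ε / 2) * (r : ℝ) ^ (ε / 2))) := by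
        ring

end Pool.Agent.Work.MP_081200_nt
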