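import Pool.Agent.Work.MP_081200_nt.Dual

set_option autoImplicit false

open Finset

namespace Pool.Agent.Work.MP_081200_nt

lemma prod_sub_pow (u v : ℤ) (hv : 1 ≤ v) (N : ℕ) (B : ℤ) (hB : |u| + v * N ≤ B) :
    ∀ (k : ℕ) (t : Fin k → ℕ), (∀ i, t i ≤ N) →
      |∏ i, (u + v * (t i : ℤ)) - u ^ k| * B ≤ v * (k * N * B ^ k) := by
  have hB0 : 0 ≤ B := by
    have := abs_nonneg u
    have h2 : 0 ≤ v * (N : ℤ) := mul_nonneg (by omega) (by positivity)
    linarith
  intro k
  induction k with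
  | zero => intro t _; simp
  | succ k ih =>
    intro t ht
    have h1 := ih (fun i => t i.succ) (fun i => ht i.succ)
    rw [Fin.prod_univ_succ]
    set pr := ∏ i : Fin k, (u + v * (t i.succ : ℤ)) with hpr
    have h2 : (u + v * (t 0 : ℤ)) * pr - u ^ (k + 1)
        = (u + v * (t 0 : ℤ)) * (pr - u ^ k) + v * (t 0 : ℤ) * u ^ k := by ring
    have h3 : |u + v * (t 0 : ℤ)| ≤ B := by
      have h4 : |u + v * (t 0 : ℤ)| ≤ |u| + |v * (t 0 : ℤ)| := abs_add_le _ _
      have h5 : |v * (t 0 : ℤ)| = v * t 0 := abs_of_nonneg (mul_nonneg (by omega) (by positivity))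
      have h6 : v * (t 0 : ℤ) ≤ v * N :=
        mul_le_mul_of_nonneg_left (by exact_mod_cast ht 0) (by omega)
      linarith
    have h7 : |u| ≤ B := by
      have h2 : 0 ≤ v * (N : ℤ) := mul_nonneg (by omega) (by positivity)
      linarith
    have h8 : |v * (t 0 : ℤ) * u ^ k| ≤ v * N * B ^ k := by
      rw [abs_mul, abs_pow]
      apply mul_le_mul _ (pow_le_pow_left₀ (abs_nonneg _) h7 k) (by positivity)
        (mul_nonneg (by omega) (by positivity))
      rw [abs_of_nonneg (mul_nonneg (by omega) (by positivity) : (0 : ℤ) ≤ v * (t 0 : ℤ))]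
      exact mul_le_mul_of_nonneg_left (by exact_mod_cast ht 0) (by omega)
    rw [h2]
    calc |(u + v * (t 0 : ℤ)) * (pr - u ^ k) + v * (t 0 : ℤ) * u ^ k| * B
        ≤ (|u + v * (t 0 : ℤ)| * |pr - u ^ k| + |v * (t 0 : ℤ) * u ^ k|) * B := by
          apply mul_le_mul_of_nonneg_right _ hB0
          rw [← abs_mul]; exact abs_add_le _ _
      _ ≤ (B * |pr - u ^ k| + v * N * B ^ k) * B := by
          apply mul_le_mul_of_nonneg_right _ hB0
          apply add_le_add _ h8
          exact mul_le_mul_of_nonneg_right h3 (abs_nonneg _)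
      _ = B * (|pr - u ^ k| * B) + v * N * B ^ (k + 1) := by ring
      _ ≤ B * (v * (k * N * B ^ k)) + v * N * B ^ (k + 1) := by
          have := mul_le_mul_of_nonneg_left h1 hB0
          linarith
      _ = v * (((k + 1 : ℕ) : ℤ) * N * B ^ (k + 1)) := by push_cast; ring

/-- Solving the quadratic-type inequality for the number of bad conductors. -/
lemma solve_J (J Z T S P : ℝ) (hJ : 0 ≤ J) (hZ : 0 < Z) (h : J ^ 2 * Z ≤ T * (J * S + J ^ 2 * P))
    (hsmall : T * P ≤ Z / 2) (hTS : 0 ≤ T * S) : J ≤ 2 * (T * S) / Z := by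
  rw [le_div_iff₀ hZ]
  rcases hJ.eq_or_lt with h0 | h0
  · rw [← h0]; linarith
  · have h1 : J ^ 2 * Z ≤ J * (T * S) + J ^ 2 * (Z / 2) := by
      have h2 : J ^ 2 * (T * P) ≤ J ^ 2 * (Z / 2) := mul_le_mul_of_nonneg_left hsmall (by positivity)
      nlinarith
    have h3 : J * (J * Z) ≤ J * (2 * (T * S)) := by nlinarith
    exact le_of_mul_le_mul_left h3 h0

end Pool.Agent.Work.MP_081200_nt
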