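import Pool.Agent.Work.MP_081200_nt.Orth

set_option autoImplicit false

open Finset

namespace Pool.Agent.Work.MP_081200_nt

/-- abstract duality inequality -/
lemma dual_abstract (F : Finset ℕ) (S : ℕ) (g : ℕ → ℕ → ℂ) (r : ℕ → ℝ) (W : ℕ → ℂ) (A R P Z : ℝ)
    (hA : 0 ≤ A) (hr0 : ∀ s, 0 ≤ r s) (hrR : ∀ s, r s ≤ R) (hrsum : ∑ s ∈ range S, r s ≤ Z)
    (hR : 0 ≤ R) (hW : ∀ f ∈ F, W f = ∑ s ∈ range S, (r s : ℂ) * g f s)
    (hWA : ∀ f ∈ F, A ≤ ‖W f‖) (hg1 : ∀ f s, ‖g f s‖ ≤ 1) (hP0 : 0 ≤ P)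
    (hP : ∀ f ∈ F, ∀ f' ∈ F, f ≠ f' →
      ‖∑ s ∈ range S, g f s * (starRingEnd ℂ) (g f' s)‖ ≤ P) :
    ((F.card : ℝ) * A) ^ 2 ≤ R * Z * ((F.card : ℝ) * S + (F.card : ℝ) ^ 2 * P) := by
  classical
  -- unimodular coefficients
  have hc : ∀ f, ∃ c : ℂ, ‖c‖ ≤ 1 ∧ c * W f = ‖W f‖ := by
    intro f
    by_cases h : W f = 0
    · exact ⟨0, by simp, by simp [h]⟩
    · refine ⟨(starRingEnd ℂ) (W f) / ‖W f‖, ?_, ?_⟩
      · rw [norm_div, RCLike.norm_conj, Complex.norm_real, norm_norm, div_self]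
        exact norm_ne_zero_iff.2 h
      · have hn : (‖W f‖ : ℂ) ≠ 0 := by exact_mod_cast norm_ne_zero_iff.2 h
        have h2 : (starRingEnd ℂ) (W f) * W f = (‖W f‖ : ℂ) ^ 2 := by
          rw [mul_comm, Complex.mul_conj, Complex.normSq_eq_norm_sq]; push_cast; rfl
        rw [div_mul_eq_mul_div, h2]
        field_simp
  choose c hc1 hc2 using hc
  set Y : ℕ → ℂ := fun s => ∑ f ∈ F, c f * g f s with hY
  have h1 : (F.card : ℝ) * A ≤ ∑ s ∈ range S, r s * ‖Y s‖ := by
    have h2 : (F.card : ℝ) * A ≤ ∑ f ∈ F, ‖W f‖ := by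
      rw [← nsmul_eq_mul, ← sum_const]
      exact sum_le_sum hWA
    have h3 : ((∑ f ∈ F, ‖W f‖ : ℝ) : ℂ) = ∑ s ∈ range S, (r s : ℂ) * Y s := by
      push_cast
      calc ∑ f ∈ F, (‖W f‖ : ℂ) = ∑ f ∈ F, c f * ∑ s ∈ range S, (r s : ℂ) * g f s := by
            apply sum_congr rfl
            intro f hf
            rw [← hc2, ← hW f hf]
        _ = ∑ s ∈ range S, (r s : ℂ) * Y s := by
            simp only [hY, mul_sum]
            rw [sum_comm]
            apply sum_congr rfl; intro s _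
            apply sum_congr rfl; intro f _
            ring
    have h4 : (∑ f ∈ F, ‖W f‖ : ℝ) = ‖((∑ f ∈ F, ‖W f‖ : ℝ) : ℂ)‖ := by
      rw [Complex.norm_real, Real.norm_eq_abs, abs_of_nonneg]
      exact sum_nonneg (fun _ _ => norm_nonneg _)
    rw [h4, h3] at h2
    refine h2.trans ((norm_sum_le _ _).trans (le_of_eq ?_))
    apply sum_congr rfl; intro s _
    rw [norm_mul, Complex.norm_real, Real.norm_eq_abs, abs_of_nonneg (hr0 s)]
  have h5 : (∑ s ∈ range S, r s * ‖Y s‖) ^ 2 ≤ (∑ s ∈ range S, r s ^ 2) * ∑ s ∈ range S, ‖Y s‖ ^ 2 :=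
    sum_mul_sq_le_sq_mul_sq _ _ _
  have h6 : ∑ s ∈ range S, r s ^ 2 ≤ R * Z := by
    calc ∑ s ∈ range S, r s ^ 2 ≤ ∑ s ∈ range S, R * r s := by
          apply sum_le_sum; intro s _
          have := hr0 s; have := hrR s; nlinarith
      _ = R * ∑ s ∈ range S, r s := by rw [mul_sum]
      _ ≤ R * Z := mul_le_mul_of_nonneg_left hrsum hR
  have h7 : ∑ s ∈ range S, ‖Y s‖ ^ 2 ≤ (F.card : ℝ) * S + (F.card : ℝ) ^ 2 * P := by
    have h8 : ((∑ s ∈ range S, ‖Y s‖ ^ 2 : ℝ) : ℂ)
        = ∑ f ∈ F, ∑ f' ∈ F, (c f * (starRingEnd ℂ) (c f')) *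
          ∑ s ∈ range S, g f s * (starRingEnd ℂ) (g f' s) := by
      push_cast
      calc ∑ s ∈ range S, (‖Y s‖ : ℂ) ^ 2 = ∑ s ∈ range S, Y s * (starRingEnd ℂ) (Y s) := by
            apply sum_congr rfl; intro s _
            rw [Complex.mul_conj, Complex.normSq_eq_norm_sq]; push_cast; rfl
        _ = ∑ s ∈ range S, ∑ f ∈ F, ∑ f' ∈ F, (c f * (starRingEnd ℂ) (c f')) *
              (g f s * (starRingEnd ℂ) (g f' s)) := by
            apply sum_congr rfl; intro s _
            simp only [hY]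
            rw [map_sum, sum_mul_sum]
            apply sum_congr rfl; intro f _
            apply sum_congr rfl; intro f' _
            rw [map_mul]; ring
        _ = _ := by
            rw [sum_comm]
            apply sum_congr rfl; intro f _
            rw [sum_comm]
            apply sum_congr rfl; intro f' _
            rw [mul_sum]
    have h9 : (∑ s ∈ range S, ‖Y s‖ ^ 2 : ℝ) = ‖((∑ s ∈ range S, ‖Y s‖ ^ 2 : ℝ) : ℂ)‖ := by
      rw [Complex.norm_real, Real.norm_eq_abs, abs_of_nonneg]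
      exact sum_nonneg (fun _ _ => by positivity)
    rw [h9, h8]
    calc ‖∑ f ∈ F, ∑ f' ∈ F, (c f * (starRingEnd ℂ) (c f')) *
          ∑ s ∈ range S, g f s * (starRingEnd ℂ) (g f' s)‖
        ≤ ∑ f ∈ F, ∑ f' ∈ F, (if f = f' then (S : ℝ) else P) := by
          apply norm_sum_le_of_le; intro f hf
          apply norm_sum_le_of_le; intro f' hf'
          rw [norm_mul, norm_mul, RCLike.norm_conj]
          have e1 : ‖c f‖ * ‖c f'‖ ≤ 1 := mul_le_one₀ (hc1 f) (norm_nonneg _) (hc1 f')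
          have e2 : ‖∑ s ∈ range S, g f s * (starRingEnd ℂ) (g f' s)‖
              ≤ (if f = f' then (S : ℝ) else P) := by
            split_ifs with h
            · calc ‖∑ s ∈ range S, g f s * (starRingEnd ℂ) (g f' s)‖ ≤ ∑ s ∈ range S, (1 : ℝ) := by
                    apply norm_sum_le_of_le; intro s _
                    rw [norm_mul, RCLike.norm_conj]
                    exact mul_le_one₀ (hg1 f s) (norm_nonneg _) (hg1 f' s)
                _ = S := by simp
            · exact hP f hf f' hf' h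
          calc ‖c f‖ * ‖c f'‖ * ‖∑ s ∈ range S, g f s * (starRingEnd ℂ) (g f' s)‖
              ≤ 1 * (if f = f' then (S : ℝ) else P) :=
                mul_le_mul e1 e2 (norm_nonneg _) (by norm_num)
            _ = _ := one_mul _
      _ ≤ ∑ f ∈ F, ((S : ℝ) + (F.card : ℝ) * P) := by
          apply sum_le_sum; intro f hf
          calc ∑ f' ∈ F, (if f = f' then (S : ℝ) else P)
              ≤ ∑ f' ∈ F, ((if f = f' then (S : ℝ) else 0) + P) := by
                apply sum_le_sum; intro f' _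
                split_ifs <;> simp [hP0]
            _ = (S : ℝ) + (F.card : ℝ) * P := by
                rw [sum_add_distrib, sum_ite_eq F f, if_pos hf, sum_const, nsmul_eq_mul]
      _ = (F.card : ℝ) * S + (F.card : ℝ) ^ 2 * P := by
          rw [sum_const, nsmul_eq_mul]; ring
  have h10 : 0 ≤ ∑ s ∈ range S, ‖Y s‖ ^ 2 := sum_nonneg (fun _ _ => by positivity)
  have hZ : 0 ≤ R * Z := le_trans (sum_nonneg (fun _ _ => by positivity)) h6
  calc ((F.card : ℝ) * A) ^ 2 ≤ (∑ s ∈ range S, r s * ‖Y s‖) ^ 2 :=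
        pow_le_pow_left₀ (by positivity) h1 2
    _ ≤ (∑ s ∈ range S, r s ^ 2) * ∑ s ∈ range S, ‖Y s‖ ^ 2 := h5
    _ ≤ (R * Z) * ((F.card : ℝ) * S + (F.card : ℝ) ^ 2 * P) :=
        mul_le_mul h6 h7 h10 hZ

/-- duality for powers of sums over progressions -/
lemma dual (F : Finset ℕ) (ψ : (f : ℕ) → DirichletCharacter ℂ f) (hF : ∀ f ∈ F, 2 ≤ f)
    (u v : ℤ) (hv : 1 ≤ v) (N k L : ℕ) (V R P : ℝ) (hV : 0 ≤ V)
    (hVf : ∀ f ∈ F, V ≤ ‖∑ t ∈ range N, ψ f ((u + v * t : ℤ) : ZMod f)‖)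
    (hR : ∀ m : ℤ, m ≠ 0 → |m - u ^ k| ≤ v * L →
      (((Fintype.piFinset (fun _ : Fin k => range N)).filter
      (fun t => ∏ i, (u + v * (t i : ℤ)) = m)).card : ℝ) ≤ R) (hR0 : 0 ≤ R)
    (hL : ∀ t ∈ Fintype.piFinset (fun _ : Fin k => range N),
      |∏ i, (u + v * (t i : ℤ)) - u ^ k| ≤ v * L)
    (hP0 : 0 ≤ P)
    (hP : ∀ f ∈ F, ∀ f' ∈ F, f ≠ f' → ∀ (b : ℤ) (n : ℕ),
      ‖∑ s ∈ range n, ψ f ((b + v * s : ℤ) : ZMod f) *
        (starRingEnd ℂ) (ψ f' ((b + v * s : ℤ) : ZMod f'))‖ ≤ P) :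
    ((F.card : ℝ) * V ^ k) ^ 2 ≤
      R * (N : ℝ) ^ k * ((F.card : ℝ) * (2 * L + 1 : ℕ) + (F.card : ℝ) ^ 2 * P) := by
  classical
  set T := Fintype.piFinset (fun _ : Fin k => range N) with hT
  set pr : (Fin k → ℕ) → ℤ := fun t => ∏ i, (u + v * (t i : ℤ)) with hpr
  set T' := T.filter (fun t => pr t ≠ 0) with hT'
  set b : ℤ := u ^ k - v * L with hb
  -- the parameter s
  have hdvd : ∀ t : Fin k → ℕ, v ∣ pr t - u ^ k := by
    intro t
    have h1 : pr t ≡ ∏ _i : Fin k, u [ZMOD v] := by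
      rw [hpr]
      apply Int.ModEq.prod
      intro i _
      rw [Int.modEq_iff_dvd]
      exact ⟨-(t i), by ring⟩
    rw [prod_const, card_univ, Fintype.card_fin] at h1
    exact (Int.modEq_iff_dvd.1 h1.symm)
  have hs : ∀ t ∈ T, ∃ s : ℕ, s < 2 * L + 1 ∧ pr t = b + v * s := by
    intro t ht
    obtain ⟨w, hw⟩ := hdvd t
    have h1 := hL t ht
    have h1' : |pr t - u ^ k| ≤ v * L := h1
    rw [hw, abs_mul, abs_of_pos (by omega : (0:ℤ) < v)] at h1'
    have h2 : |w| ≤ L := le_of_mul_le_mul_left h1' (by omega)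
    rw [abs_le] at h2
    refine ⟨(w + L).toNat, ?_, ?_⟩
    · have : ((w + L).toNat : ℤ) = w + L := Int.toNat_of_nonneg (by omega)
      omega
    · rw [Int.toNat_of_nonneg (by omega), hb]
      linear_combination hw
  choose! σ hσ1 hσ2 using hs
  set r : ℕ → ℝ := fun s => ((T'.filter (fun t => σ t = s)).card : ℝ) with hr
  have hWf : ∀ f ∈ F, (∑ t ∈ range N, ψ f ((u + v * t : ℤ) : ZMod f)) ^ k
      = ∑ s ∈ range (2 * L + 1), (r s : ℂ) * ψ f ((b + v * s : ℤ) : ZMod f) := by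
    intro f hf
    calc (∑ t ∈ range N, ψ f ((u + v * t : ℤ) : ZMod f)) ^ k
        = ∏ _i : Fin k, ∑ t ∈ range N, ψ f ((u + v * t : ℤ) : ZMod f) := by
          rw [prod_const, card_univ, Fintype.card_fin]
      _ = ∑ t ∈ T, ∏ i, ψ f ((u + v * (t i) : ℤ) : ZMod f) := by
          rw [prod_univ_sum]
      _ = ∑ t ∈ T, ψ f ((pr t : ℤ) : ZMod f) := by
          apply sum_congr rfl; intro t _
          rw [hpr]; push_cast; rw [map_prod]
      _ = ∑ t ∈ T', ψ f ((pr t : ℤ) : ZMod f) := by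
          rw [hT', sum_filter]
          apply sum_congr rfl; intro t _
          split_ifs with h
          · rfl
          · push Not at h
            rw [h, Int.cast_zero]
            exact DirichletCharacter.map_zero' (ψ f) (by have := hF f hf; omega)
      _ = ∑ s ∈ range (2 * L + 1), ∑ t ∈ T' with σ t = s, ψ f ((pr t : ℤ) : ZMod f) := by
          rw [sum_fiberwise_of_maps_to]
          intro t ht
          rw [mem_range]
          exact hσ1 t (mem_filter.1 ht).1
      _ = ∑ s ∈ range (2 * L + 1), (r s : ℂ) * ψ f ((b + v * s : ℤ) : ZMod f) := by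
          apply sum_congr rfl; intro s _
          have : ∀ t ∈ T'.filter (fun t => σ t = s), ψ f ((pr t : ℤ) : ZMod f)
              = ψ f ((b + v * s : ℤ) : ZMod f) := by
            intro t ht
            rw [mem_filter] at ht
            rw [hσ2 t (mem_filter.1 ht.1).1, ht.2]
          rw [sum_congr rfl this, sum_const, nsmul_eq_mul, hr]
          push_cast
          rfl
  have hrR : ∀ s, r s ≤ R := by
    intro s
    rw [hr]
    simp only
    by_cases hne : (T'.filter (fun t => σ t = s)) = ∅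
    · rw [hne]; simpa using hR0
    · obtain ⟨t₀, ht₀⟩ := nonempty_iff_ne_empty.2 hne
      rw [mem_filter] at ht₀
      have ht₀T := (mem_filter.1 ht₀.1).1
      have e0 : pr t₀ = b + v * s := by rw [hσ2 t₀ ht₀T, ht₀.2]
      have h1 : b + v * (s : ℤ) ≠ 0 := by
        rw [← e0]; exact (mem_filter.1 ht₀.1).2
      have h2 := hR (b + v * s) h1 (by rw [← e0]; exact hL t₀ ht₀T)
      refine le_trans ?_ h2
      have h3 : (T'.filter (fun t => σ t = s)) ⊆
          (T.filter (fun t => ∏ i, (u + v * (t i : ℤ)) = b + v * s)) := by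
        intro t ht
        rw [mem_filter] at ht
        rw [mem_filter]
        have htT := (mem_filter.1 ht.1).1
        refine ⟨htT, ?_⟩
        have : pr t = b + v * s := by rw [hσ2 t htT, ht.2]
        exact this
      exact_mod_cast card_le_card h3
  have hrsum : ∑ s ∈ range (2 * L + 1), r s ≤ (N : ℝ) ^ k := by
    have h1 : ∑ s ∈ range (2 * L + 1), (T'.filter (fun t => σ t = s)).card = T'.card := by
      rw [← card_eq_sum_card_fiberwise]
      intro t ht
      rw [mem_coe, mem_range]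
      exact hσ1 t (mem_filter.1 ht).1
    have h2 : T'.card ≤ N ^ k := by
      calc T'.card ≤ T.card := card_filter_le _ _
        _ = N ^ k := by rw [hT, Fintype.card_piFinset_const, card_range]
    rw [hr]
    have : (∑ s ∈ range (2 * L + 1), (((T'.filter (fun t => σ t = s)).card : ℕ) : ℝ))
        = ((T'.card : ℕ) : ℝ) := by
      rw [← h1]; push_cast; rfl
    rw [this]
    exact_mod_cast h2
  have := dual_abstract F (2 * L + 1) (fun f s => ψ f ((b + v * s : ℤ) : ZMod f)) r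
    (fun f => (∑ t ∈ range N, ψ f ((u + v * t : ℤ) : ZMod f)) ^ k) (V ^ k) R P ((N : ℝ) ^ k)
    (by positivity) (fun s => by rw [hr]; positivity) hrR hrsum hR0 hWf
    (fun f hf => by
      rw [norm_pow]
      exact pow_le_pow_left₀ hV (hVf f hf) k)
    (fun f s => DirichletCharacter.norm_le_one _ _) hP0
    (fun f hf f' hf' hne => hP f hf f' hf' hne b (2 * L + 1))
  exact this

end Pool.Agent.Work.MP_081200_nt
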