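import Pool.Agent.Work.MP_081200_nt.Union

set_option autoImplicit false

open Finset

namespace Pool.Agent.Work.MP_081200_nt

lemma sum_Ioc_eq (q : ℕ) (χ : DirichletCharacter ℂ q) (M : ℤ) (N : ℕ) :
    ∑ a ∈ Ioc M (M + N), χ (a : ZMod q) = ∑ t ∈ range N, χ ((M + 1 + t : ℤ) : ZMod q) := by
  symm
  apply sum_bij' (fun (t : ℕ) _ => M + 1 + (t : ℤ)) (fun (a : ℤ) _ => (a - M - 1).toNat)
  · intro t ht
    rw [mem_range] at ht
    rw [mem_Ioc]
    constructor <;> omega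
  · intro a ha
    rw [mem_Ioc] at ha
    rw [mem_range]
    omega
  · intro t _
    have : M + 1 + (t : ℤ) - M - 1 = t := by ring
    rw [this]
    exact Int.toNat_natCast t
  · intro a ha
    rw [mem_Ioc] at ha
    omega
  · intro t _
    rfl

theorem final (n : ℕ) (hn : 1 ≤ n) (κ A η : ℝ) (hκ : 0 ≤ κ) (hA : (1 : ℝ) / n ≤ A)
    (hη : (n + 2) * κ + (n + 1) * (A - 1 / n) < η) :
    ∃ δ : ℝ, 0 < δ ∧ ∃ c : ℝ, ∀ Q : ℝ, 3 ≤ Q → ∃ E : Finset ℕ, (E.card : ℝ) ≤ c * Q ^ η ∧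
      ∀ (q : ℕ) (χ : DirichletCharacter ℂ q), q ≠ 0 → (q : ℝ) ≤ Q → χ ≠ 1 → χ.conductor ∉ E →
        ∀ (N : ℕ) (M : ℤ), (N : ℝ) ≤ Q ^ ((1 : ℝ) / n) →
          (∃ v j : ℤ, 1 ≤ v ∧ (v : ℝ) ≤ Q ^ κ ∧ IsCoprime v (q : ℤ) ∧
            |(v : ℝ) * M - j * q| ≤ v * Q ^ A) →
          ‖∑ a ∈ Ioc M (M + N), χ (a : ZMod q)‖ ≤ c * Q ^ ((1 - δ) / n) := by
  have hn0 : (0 : ℝ) < n := by exact_mod_cast hn
  have hn1 : (1 : ℝ) ≤ n := by exact_mod_cast hn
  have hApos : 0 < A := lt_of_lt_of_le (by positivity) hA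
  set g : ℝ := η - ((n + 2) * κ + (n + 1) * (A - 1 / n)) with hg
  have hg0 : 0 < g := by rw [hg]; linarith
  set ε : ℝ := min g (1 / n) with hε
  have hε0 : 0 < ε := lt_min hg0 (by positivity)
  have hεg : ε ≤ g := min_le_left _ _
  have hεn : ε ≤ 1 / n := min_le_right _ _
  set δ₀ : ℝ := min (g / 8) (1 / (8 * (n + 1))) with hδ₀
  have hδ₀0 : 0 < δ₀ := lt_min (by positivity) (by positivity)
  have hδg : δ₀ ≤ g / 8 := min_le_left _ _
  have hδn : δ₀ ≤ 1 / (8 * (n + 1)) := min_le_right _ _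
  have hδ1 : δ₀ < 1 := by
    refine lt_of_le_of_lt hδn ?_
    rw [div_lt_one (by positivity)]; linarith
  have hcond : 2 * (n + 1) * δ₀ / n + ε / 2 < 1 / n := by
    have h1 : 2 * (n + 1) * δ₀ / n ≤ 1 / (4 * n) := by
      rw [div_le_div_iff₀ hn0 (by positivity)]
      have h2 : (8 * ((n : ℝ) + 1)) * δ₀ ≤ 1 := by
        rw [le_div_iff₀ (by positivity)] at hδn
        linarith
      nlinarith
    have h2 : (1 : ℝ) / (4 * n) = (1 / n) / 4 := by field_simp
    have h3 : (0 : ℝ) < 1 / n := by positivity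
    rw [h2] at h1
    linarith
  obtain ⟨C, Q₀, hC, hQ₀, hE⟩ := exists_E n hn κ A δ₀ ε hκ hA hε0 hδ₀0 hδ1 hcond
  obtain ⟨Cd, hCd, hd⟩ := div_bound (δ₀ / (2 * n)) (by positivity)
  set Q₁ : ℝ := max Q₀ ((2 : ℝ) ^ (1 / A)) with hQ₁
  have hQ₁1 : 1 ≤ Q₁ := hQ₀.trans (le_max_left _ _)
  set c : ℝ := max (max C Cd) (Q₁ ^ ((1 : ℝ) / n)) with hc
  have hcC : C ≤ c := (le_max_left _ _).trans (le_max_left _ _)
  have hcCd : Cd ≤ c := (le_max_right _ _).trans (le_max_left _ _)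
  have hcQ : Q₁ ^ ((1 : ℝ) / n) ≤ c := le_max_right _ _
  have hc0 : 0 ≤ c := hC.trans hcC
  have hδ'1 : 0 ≤ (1 - δ₀ / 2) / n := div_nonneg (by linarith) hn0.le
  refine ⟨δ₀ / 2, by positivity, c, ?_⟩
  intro Q hQ3
  have hQ0 : 0 < Q := by linarith
  have hQ1 : 1 ≤ Q := by linarith
  by_cases hQ : Q₁ ≤ Q
  · have hQQ₀ : Q₀ ≤ Q := (le_max_left _ _).trans hQ
    obtain ⟨E, hE1, hE2⟩ := hE Q hQQ₀
    refine ⟨E, ?_, ?_⟩
    · have h1 : Q ^ (ε / 4 + (n + 2) * κ + (n + 1) * (A - 1 / n) + (2 * n + 4) * δ₀ / n)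
          ≤ Q ^ η := by
        apply Real.rpow_le_rpow_of_exponent_le hQ1
        have h2 : (2 * (n : ℝ) + 4) * δ₀ / n ≤ 6 * δ₀ := by
          rw [div_le_iff₀ hn0]; nlinarith
        linarith
      calc (E.card : ℝ) ≤ _ := hE1
        _ ≤ c * Q ^ η := mul_le_mul hcC h1 (by positivity) hc0
    · intro q χ hq hqQ hχ hcond N M hN ⟨v, j, hv1, hvQ, hvq, huM⟩
      have : NeZero q := ⟨hq⟩
      have ha2 : 2 ≤ Q ^ A := by
        have h1 : (2 : ℝ) ^ (1 / A) ≤ Q := (le_max_right _ _).trans hQ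
        calc (2 : ℝ) = ((2 : ℝ) ^ (1 / A)) ^ A := by
              rw [← Real.rpow_mul (by norm_num), one_div, inv_mul_cancel₀ hApos.ne', Real.rpow_one]
          _ ≤ Q ^ A := Real.rpow_le_rpow (by positivity) h1 hApos.le
      have hf0 := χ.conductor_ne_zero
      have hf1 : χ.conductor ≠ 1 := fun h => hχ (χ.eq_one_iff_conductor_eq_one.2 h)
      have hfq : χ.conductor ≤ q := Nat.le_of_dvd (by omega) χ.conductor_dvd_level
      have hvR : (1 : ℝ) ≤ v := by exact_mod_cast hv1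
      set u : ℤ := v * M - j * q + v with hu
      have hvχ : ‖χ (v : ZMod q)‖ = 1 := by
        have hunit : IsUnit ((v : ℤ) : ZMod q) := by
          have := hvq
          rw [isCoprime_comm] at this
          obtain ⟨a, b, hab⟩ := this
          have h2 : ((b * v : ℤ) : ZMod q) = 1 := by
            have h3 := congrArg (fun z : ℤ => (z : ZMod q)) hab
            push_cast at h3 ⊢
            rw [ZMod.natCast_self, mul_zero, zero_add] at h3
            exact h3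
          push_cast at h2
          exact IsUnit.of_mul_eq_one _ (by rw [mul_comm]; exact h2)
        rw [← hunit.unit_spec]; exact DirichletCharacter.unit_norm_eq_one χ hunit.unit
      have hS : χ (v : ZMod q) * ∑ a ∈ Ioc M (M + N), χ (a : ZMod q)
          = ∑ t ∈ range N, χ ((u + v * t : ℤ) : ZMod q) := by
        rw [sum_Ioc_eq, mul_sum]
        apply sum_congr rfl; intro t _
        rw [← map_mul]
        congr 1
        rw [hu]
        push_cast
        rw [ZMod.natCast_self]; ring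
      have hS' : ‖∑ a ∈ Ioc M (M + N), χ (a : ZMod q)‖
          = ‖∑ t ∈ range N, χ ((u + v * t : ℤ) : ZMod q)‖ := by
        rw [← hS, norm_mul, hvχ, one_mul]
      rw [hS']
      have huR : |(u : ℝ)| ≤ v * Q ^ A + v := by
        rw [hu]; push_cast
        calc |(v : ℝ) * M - j * q + v| ≤ |(v : ℝ) * M - j * q| + |(v : ℝ)| := abs_add_le _ _
          _ ≤ v * Q ^ A + v := by rw [abs_of_nonneg (by linarith : (0:ℝ) ≤ v)]; linarith
      have h1 := imprim q χ u v hv1 hvq N (Q ^ ((1 - δ₀) / n)) (by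
        intro u' N' hN' hu'
        apply hE2 χ.conductor χ.primitiveCharacter (by omega) _ hcond
          χ.primitiveCharacter_isPrimitive v hv1 hvQ _ u' _ N' _
        · exact (by exact_mod_cast hfq : (χ.conductor : ℝ) ≤ q).trans hqQ
        · obtain ⟨w, hw⟩ := χ.conductor_dvd_level
          rw [hw] at hvq
          push_cast at hvq
          exact hvq.of_mul_right_left
        · have h2 : |(u' : ℝ)| ≤ |(u : ℝ)| + v := by exact_mod_cast hu'
          nlinarith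
        · exact (by exact_mod_cast hN' : (N' : ℝ) ≤ N).trans hN)
      refine h1.trans ?_
      have h2 : (q.divisors.card : ℝ) ≤ Cd * Q ^ (δ₀ / (2 * n)) := by
        refine (hd q hq).trans ?_
        apply mul_le_mul_of_nonneg_left _ (by linarith)
        exact Real.rpow_le_rpow (by positivity) hqQ (by positivity)
      calc (q.divisors.card : ℝ) * Q ^ ((1 - δ₀) / n)
          ≤ (Cd * Q ^ (δ₀ / (2 * n))) * Q ^ ((1 - δ₀) / n) :=
            mul_le_mul_of_nonneg_right h2 (by positivity)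
        _ = Cd * Q ^ ((1 - δ₀ / 2) / n) := by
            rw [mul_assoc, ← Real.rpow_add hQ0]
            congr 2
            field_simp; ring
        _ ≤ c * Q ^ ((1 - δ₀ / 2) / n) := mul_le_mul_of_nonneg_right hcCd (by positivity)
  · push Not at hQ
    refine ⟨∅, by simp only [card_empty, Nat.cast_zero]; positivity, ?_⟩
    intro q χ _ _ _ _ N M hN _
    have h1 : ‖∑ a ∈ Ioc M (M + N), χ (a : ZMod q)‖ ≤ N := by
      calc ‖∑ a ∈ Ioc M (M + N), χ (a : ZMod q)‖ ≤ ∑ a ∈ Ioc M (M + (N : ℤ)), (1 : ℝ) :=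
            norm_sum_le_of_le _ (fun t _ => DirichletCharacter.norm_le_one _ _)
        _ = N := by simp
    have h2 : Q ^ ((1 : ℝ) / n) ≤ Q₁ ^ ((1 : ℝ) / n) :=
      Real.rpow_le_rpow hQ0.le hQ.le (by positivity)
    have h3 : 1 ≤ Q ^ ((1 - δ₀ / 2) / n) := Real.one_le_rpow hQ1 hδ'1
    calc ‖∑ a ∈ Ioc M (M + N), χ (a : ZMod q)‖ ≤ c := by linarith
      _ = c * 1 := (mul_one c).symm
      _ ≤ c * Q ^ ((1 - δ₀ / 2) / n) := mul_le_mul_of_nonneg_left h3 hc0

end Pool.Agent.Work.MP_081200_nt
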