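import Pool.Agent.Work.MP_081200_nt.Final

set_option autoImplicit false

namespace Pool.Agent.Work.MP_081200_nt.MajorArcsResult

open Finset

/-- Power saving for character sums of length at most `Q ^ (1 / n)`, for every `n`, for all
non-principal characters of modulus at most `Q` whose conductor lies outside a set of size
`O (Q ^ η)`, and for all intervals `(M, M + N]` that start within `Q ^ A` of a point `j q / v` with
`v ≤ Q ^ κ` coprime to `q`. -/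
theorem result (n : ℕ) (hn : 1 ≤ n) (κ A η : ℝ) (hκ : 0 ≤ κ) (hA : (1 : ℝ) / n ≤ A)
    (hη : (n + 2) * κ + (n + 1) * (A - 1 / n) < η) :
    ∃ δ : ℝ, 0 < δ ∧ ∃ c : ℝ, ∀ Q : ℝ, 3 ≤ Q → ∃ E : Finset ℕ, (E.card : ℝ) ≤ c * Q ^ η ∧
      ∀ (q : ℕ) (χ : DirichletCharacter ℂ q), q ≠ 0 → (q : ℝ) ≤ Q → χ ≠ 1 → χ.conductor ∉ E →
        ∀ (N : ℕ) (M : ℤ), (N : ℝ) ≤ Q ^ ((1 : ℝ) / n) →
          (∃ v j : ℤ, 1 ≤ v ∧ (v : ℝ) ≤ Q ^ κ ∧ IsCoprime v (q : ℤ) ∧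
            |(v : ℝ) * M - j * q| ≤ v * Q ^ A) →
          ‖∑ a ∈ Ioc M (M + N), χ (a : ZMod q)‖ ≤ c * Q ^ ((1 - δ) / n) :=
  Pool.Agent.Work.MP_081200_nt.final n hn κ A η hκ hA hη

end Pool.Agent.Work.MP_081200_nt.MajorArcsResult
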