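import Pool.Agent.Work.MP_081200_nt.Count

set_option autoImplicit false

open Finset

namespace Pool.Agent.Work.MP_081200_nt

/-- Bad conductors for one progression. -/
lemma count_one (n : ℕ) (hn : 1 ≤ n) (κ A δ ε : ℝ) (hκ : 0 ≤ κ) (hA : (1 : ℝ) / n ≤ A)
    (hε : 0 < ε)
    (hcond : 2 * (n + 1) * δ / n + ε / 2 < 1 / n) :
    ∃ C Q₀ : ℝ, 0 ≤ C ∧ 1 ≤ Q₀ ∧ ∀ Q : ℝ, Q₀ ≤ Q → ∀ v : ℤ, 1 ≤ v → (v : ℝ) ≤ Q ^ κ →
      ∀ u : ℤ, |(u : ℝ)| ≤ 4 * v * Q ^ A → ∀ N : ℕ, (N : ℝ) ≤ Q ^ ((1 : ℝ) / n) →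
      ∀ (F : Finset ℕ) (ψ : (f : ℕ) → DirichletCharacter ℂ f),
        (∀ f ∈ F, 2 ≤ f ∧ (f : ℝ) ≤ Q ∧ IsCoprime v (f : ℤ) ∧ (ψ f).IsPrimitive ∧
          Q ^ ((1 - δ) / n) / 4 ≤ ‖∑ t ∈ range N, ψ f ((u + v * t : ℤ) : ZMod f)‖) →
        (F.card : ℝ) ≤ C * Q ^ (ε / 4 + (A - 1 / n) * n + κ * n + 2 * (n + 1) * δ / n) := by
  have hn0 : (0 : ℝ) < n := by exact_mod_cast hn
  set k : ℕ := n + 1 with hk
  have hk0 : (0 : ℝ) < k := by rw [hk]; positivity
  have hkn : (k : ℝ) = n + 1 := by rw [hk]; push_cast; ring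
  have hApos : 0 < A := lt_of_lt_of_le (by positivity) hA
  have hκA : 0 < κ + A := by linarith
  set ε₁ : ℝ := ε / (4 * (κ + A) * k ^ 2) with hε₁
  have hε₁0 : 0 < ε₁ := by positivity
  obtain ⟨C₁, hC₁, hdiv⟩ := div_bound ε₁ hε₁0
  obtain ⟨C₂, hC₂, hquasi⟩ := quasi (ε / 8) (by positivity)
  set CR : ℝ := (2 * C₁ * (((k + 1 : ℕ) : ℝ) * 5 ^ k) ^ ε₁) ^ k with hCR
  have hCR0 : 0 < CR := by positivity
  set g : ℝ := 1 / n - (2 * (n + 1) * δ / n + ε / 2) with hg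
  have hg0 : 0 < g := by rw [hg]; linarith
  set C₃ : ℝ := CR * C₂ * 2 * 4 ^ (2 * k) with hC₃
  have hC₃0 : 0 < C₃ := by positivity
  set C₄ : ℝ := 2 * CR * ((2 * n + 3) * 5 ^ n) * 4 ^ (2 * k) with hC₄
  refine ⟨C₄, max 1 (C₃ ^ (1 / g)), by positivity, le_max_left _ _, ?_⟩
  intro Q hQ v hv hvQ u hu N hN F ψ hF
  have hQ1 : 1 ≤ Q := (le_max_left _ _).trans hQ
  have hQ0 : 0 < Q := by linarith
  have hQC : C₃ ≤ Q ^ g := by
    have h1 : C₃ ^ (1 / g) ≤ Q := (le_max_right _ _).trans hQ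
    calc C₃ = (C₃ ^ (1 / g)) ^ g := by
          rw [← Real.rpow_mul hC₃0.le, one_div, inv_mul_cancel₀ hg0.ne', Real.rpow_one]
      _ ≤ Q ^ g := Real.rpow_le_rpow (by positivity) h1 hg0.le
  set X : ℝ := Q ^ ((1 : ℝ) / n) with hX
  set a : ℝ := Q ^ A with ha
  have hXa : X ≤ a := Real.rpow_le_rpow_of_exponent_le hQ1 hA
  have hX1 : 1 ≤ X := Real.one_le_rpow hQ1 (by positivity)
  have ha1 : 1 ≤ a := hX1.trans hXa
  have hv0 : (0 : ℝ) < v := by exact_mod_cast (by omega : 0 < v)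
  have hv1 : (1 : ℝ) ≤ v := by exact_mod_cast hv
  -- `B`
  set B : ℤ := |u| + v * N with hB
  have hBR : (B : ℝ) = |(u : ℝ)| + v * N := by rw [hB]; push_cast; ring
  have hB0 : 0 ≤ B := by
    have := abs_nonneg u
    have h2 : 0 ≤ v * (N : ℤ) := mul_nonneg (by omega) (by positivity)
    rw [hB]; linarith
  have hB5 : (B : ℝ) ≤ 5 * (v * a) := by
    rw [hBR]
    have : (v : ℝ) * N ≤ v * a := mul_le_mul_of_nonneg_left (hN.trans hXa) hv0.le
    linarith
  have hBQ : (B : ℝ) ≤ 5 * Q ^ (κ + A) := by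
    rw [Real.rpow_add hQ0]
    refine hB5.trans ?_
    apply mul_le_mul_of_nonneg_left _ (by norm_num)
    exact mul_le_mul_of_nonneg_right hvQ (by positivity)
  set Bn : ℕ := B.toNat with hBn
  have hBnz : (Bn : ℤ) = B := Int.toNat_of_nonneg hB0
  have hBnR : (Bn : ℝ) = B := by exact_mod_cast congrArg (fun z : ℤ => (z : ℝ)) hBnz
  set L : ℕ := k * N * Bn ^ n with hL
  have hLbound : ∀ t ∈ Fintype.piFinset (fun _ : Fin k => range N),
      |∏ i, (u + v * (t i : ℤ)) - u ^ k| ≤ v * L := by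
    intro t ht
    rw [Fintype.mem_piFinset] at ht
    have hNpos : 0 < N := by
      have := ht ⟨0, by omega⟩
      rw [mem_range] at this
      omega
    have hBpos : 0 < B := by
      have := abs_nonneg u
      have h2 : 0 < v * (N : ℤ) := mul_pos (by omega) (by exact_mod_cast hNpos)
      rw [hB]; linarith
    have h1 := prod_sub_pow u v hv N B le_rfl k t (fun i => (mem_range.1 (ht i)).le)
    have h2 : v * ((k : ℤ) * N * B ^ k) = (v * (L : ℤ)) * B := by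
      rw [hL, hk]; push_cast; rw [hBnz]; ring
    rw [h2] at h1
    exact le_of_mul_le_mul_right h1 hBpos
  set R : ℝ := CR * Q ^ (ε / 4) with hR
  have hR0 : 0 ≤ R := by positivity
  have hRbound : ∀ m : ℤ, m ≠ 0 → |m - u ^ k| ≤ v * L →
      (((Fintype.piFinset (fun _ : Fin k => range N)).filter
      (fun t => ∏ i, (u + v * (t i : ℤ)) = m)).card : ℝ) ≤ R := by
    intro m hm hmL
    have h1 := mult_bound u v hv N k m hm
    have h2 : (((Fintype.piFinset (fun _ : Fin k => range N)).filter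
      (fun t => ∏ i, (u + v * (t i : ℤ)) = m)).card : ℝ) ≤ (2 * (m.natAbs.divisors.card : ℝ)) ^ k := by
      exact_mod_cast h1
    refine h2.trans ?_
    have h3 := hdiv m.natAbs (Int.natAbs_ne_zero.2 hm)
    have h4 : ((m.natAbs : ℕ) : ℝ) ≤ ((k + 1 : ℕ) : ℝ) * (5 * Q ^ (κ + A)) ^ k := by
      have h5 : |m| ≤ |u| ^ k + v * L := by
        have := abs_sub_abs_le_abs_sub m (u ^ k)
        rw [abs_pow] at this
        linarith
      have h6 : |u| ^ k ≤ B ^ k := by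
        apply pow_le_pow_left₀ (abs_nonneg _)
        have h2 : 0 ≤ v * (N : ℤ) := mul_nonneg (by omega) (by positivity)
        rw [hB]; linarith
      have h7 : v * (L : ℤ) ≤ k * B ^ k := by
        have h8 : v * (N : ℤ) ≤ B := by rw [hB]; have := abs_nonneg u; linarith
        calc v * (L : ℤ) = k * ((v * N) * B ^ n) := by rw [hL]; push_cast; rw [hBnz]; ring
          _ ≤ k * (B * B ^ n) := by
              apply mul_le_mul_of_nonneg_left _ (by positivity)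
              exact mul_le_mul_of_nonneg_right h8 (by positivity)
          _ = k * B ^ k := by rw [hk, pow_succ']
      have h9 : |m| ≤ (k + 1) * B ^ k := by linarith
      have h10 : ((m.natAbs : ℕ) : ℝ) = |(m : ℝ)| := by
        rw [Nat.cast_natAbs]; push_cast; rfl
      rw [h10]
      have h11 : |(m : ℝ)| ≤ ((k : ℝ) + 1) * (B : ℝ) ^ k := by exact_mod_cast h9
      refine h11.trans ?_
      push_cast
      apply mul_le_mul_of_nonneg_left _ (by positivity)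
      exact pow_le_pow_left₀ (by exact_mod_cast hB0) hBQ k
    have h5 : (m.natAbs.divisors.card : ℝ) ≤ C₁ * ((((k + 1 : ℕ) : ℝ) * 5 ^ k) ^ ε₁ *
        Q ^ ((κ + A) * k * ε₁)) := by
      refine h3.trans ?_
      apply mul_le_mul_of_nonneg_left _ (by linarith)
      calc ((m.natAbs : ℕ) : ℝ) ^ ε₁ ≤ (((k + 1 : ℕ) : ℝ) * (5 * Q ^ (κ + A)) ^ k) ^ ε₁ :=
            Real.rpow_le_rpow (by positivity) h4 hε₁0.le
        _ = ((((k + 1 : ℕ) : ℝ) * 5 ^ k) * Q ^ ((κ + A) * k)) ^ ε₁ := by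
            congr 1
            rw [mul_pow, Real.rpow_mul hQ0.le, Real.rpow_natCast]; ring
        _ = (((k + 1 : ℕ) : ℝ) * 5 ^ k) ^ ε₁ * Q ^ ((κ + A) * k * ε₁) := by
            rw [Real.mul_rpow (by positivity) (by positivity), ← Real.rpow_mul hQ0.le]
    calc (2 * (m.natAbs.divisors.card : ℝ)) ^ k
        ≤ (2 * (C₁ * ((((k + 1 : ℕ) : ℝ) * 5 ^ k) ^ ε₁ * Q ^ ((κ + A) * k * ε₁)))) ^ k := by
          apply pow_le_pow_left₀ (by positivity)
          linarith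
      _ = CR * (Q ^ ((κ + A) * k * ε₁)) ^ k := by
          rw [hCR, ← mul_pow]; congr 1; ring
      _ = R := by
          rw [hR, ← Real.rpow_natCast, ← Real.rpow_mul hQ0.le]
          congr 2
          rw [hε₁]
          field_simp
  set P : ℝ := C₂ * Q ^ (1 + ε / 4) with hP
  have hP0 : 0 ≤ P := by positivity
  have hPbound : ∀ f ∈ F, ∀ f' ∈ F, f ≠ f' → ∀ (b : ℤ) (m : ℕ),
      ‖∑ s ∈ range m, ψ f ((b + v * s : ℤ) : ZMod f) *
        (starRingEnd ℂ) (ψ f' ((b + v * s : ℤ) : ZMod f'))‖ ≤ P := by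
    intro f hf f' hf' hne b m
    obtain ⟨h1, h2, h3, h4, _⟩ := hF f hf
    obtain ⟨h1', h2', h3', h4', _⟩ := hF f' hf'
    refine (hquasi f f' (ψ f) (ψ f') (by omega) (by omega) hne h4 h4' v h3 h3' b m).trans ?_
    rw [hP]
    apply mul_le_mul_of_nonneg_left _ (by linarith)
    have h5 : (f : ℝ) * f' ≤ Q ^ (2 : ℝ) := by
      rw [Real.rpow_two, pow_two]
      exact mul_le_mul h2 h2' (by positivity) hQ0.le
    calc ((f : ℝ) * f') ^ (1 / 2 + ε / 8) ≤ (Q ^ (2 : ℝ)) ^ (1 / 2 + ε / 8) :=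
          Real.rpow_le_rpow (by positivity) h5 (by positivity)
      _ = Q ^ (1 + ε / 4) := by
          rw [← Real.rpow_mul hQ0.le]; congr 1; ring
  set V : ℝ := Q ^ ((1 - δ) / n) / 4 with hV
  have hV0 : 0 < V := by positivity
  have hdual := dual F ψ (fun f hf => (hF f hf).1) u v hv N k L V R P hV0.le
    (fun f hf => (hF f hf).2.2.2.2) hRbound hR0 hLbound hP0 hPbound
  set J : ℝ := (F.card : ℝ) with hJ
  have hJ0 : 0 ≤ J := by positivity
  -- bounds for the pieces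
  set Z : ℝ := V ^ (2 * k) with hZ
  have hZ0 : 0 < Z := by positivity
  set S : ℝ := ((2 * n + 3) * 5 ^ n) * (X * (Q ^ (κ * n) * Q ^ (A * n))) with hS
  have hS0 : 0 ≤ S := by positivity
  have hLS : ((2 * L + 1 : ℕ) : ℝ) ≤ S := by
    have h1 : (L : ℝ) ≤ (n + 1) * X * (5 * (v * a)) ^ n := by
      rw [hL]
      push_cast
      rw [hBnR, hkn]
      have h2 : (B : ℝ) ^ n ≤ (5 * (v * a)) ^ n :=
        pow_le_pow_left₀ (by exact_mod_cast hB0) hB5 n
      calc ((n : ℝ) + 1) * N * (B : ℝ) ^ n ≤ ((n : ℝ) + 1) * X * (B : ℝ) ^ n := by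
            apply mul_le_mul_of_nonneg_right _ (by have : (0:ℝ) ≤ B := by exact_mod_cast hB0
                                                   positivity)
            exact mul_le_mul_of_nonneg_left hN (by positivity)
        _ ≤ ((n : ℝ) + 1) * X * (5 * (v * a)) ^ n :=
            mul_le_mul_of_nonneg_left h2 (by positivity)
    have h3 : (5 * ((v : ℝ) * a)) ^ n ≤ 5 ^ n * (Q ^ (κ * n) * Q ^ (A * n)) := by
      rw [mul_pow, mul_pow]
      apply mul_le_mul_of_nonneg_left _ (by positivity)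
      have h4 : (v : ℝ) ^ n ≤ Q ^ (κ * n) := by
        rw [Real.rpow_mul hQ0.le, Real.rpow_natCast]
        exact pow_le_pow_left₀ hv0.le hvQ n
      have h5 : a ^ n = Q ^ (A * n) := by
        rw [Real.rpow_mul hQ0.le, Real.rpow_natCast]
      rw [h5]
      exact mul_le_mul_of_nonneg_right h4 (by positivity)
    have h4 : (1 : ℝ) ≤ X * (5 ^ n * (Q ^ (κ * n) * Q ^ (A * n))) := by
      have e1 : (1 : ℝ) ≤ Q ^ (κ * n) := Real.one_le_rpow hQ1 (by positivity)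
      have e2 : (1 : ℝ) ≤ Q ^ (A * n) := Real.one_le_rpow hQ1 (by positivity)
      have e3 : (1 : ℝ) ≤ 5 ^ n := one_le_pow₀ (by norm_num)
      exact one_le_mul_of_one_le_of_one_le hX1
        (one_le_mul_of_one_le_of_one_le e3 (one_le_mul_of_one_le_of_one_le e1 e2))
    push_cast
    calc 2 * (L : ℝ) + 1 ≤ 2 * (((n : ℝ) + 1) * X * (5 ^ n * (Q ^ (κ * n) * Q ^ (A * n))))
          + X * (5 ^ n * (Q ^ (κ * n) * Q ^ (A * n))) := by
          have h5 : (L : ℝ) ≤ ((n : ℝ) + 1) * X * (5 ^ n * (Q ^ (κ * n) * Q ^ (A * n))) :=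
            h1.trans (mul_le_mul_of_nonneg_left h3 (by positivity))
          linarith
      _ = S := by rw [hS]; ring
  have hmain : J ^ 2 * Z ≤ (R * X ^ k) * (J * S + J ^ 2 * P) := by
    have e1 : (J * V ^ k) ^ 2 = J ^ 2 * Z := by rw [hZ, mul_pow, ← pow_mul, mul_comm k 2]
    rw [e1] at hdual
    refine hdual.trans ?_
    have hNk : (N : ℝ) ^ k ≤ X ^ k := pow_le_pow_left₀ (by positivity) hN k
    apply mul_le_mul
    · exact mul_le_mul_of_nonneg_left hNk hR0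
    · have := mul_le_mul_of_nonneg_left hLS hJ0
      linarith
    · positivity
    · positivity
  have hXk : X ^ k = Q ^ ((k : ℝ) / n) := by
    rw [hX, ← Real.rpow_natCast, ← Real.rpow_mul hQ0.le]; congr 1; ring
  have hZeq : Z = Q ^ ((1 - δ) / n * (2 * k)) / 4 ^ (2 * k) := by
    rw [hZ, hV, div_pow, ← Real.rpow_natCast (Q ^ ((1 - δ) / n)), ← Real.rpow_mul hQ0.le]
    push_cast; rfl
  have hsmall : (R * X ^ k) * P ≤ Z / 2 := by
    rw [hR, hXk, hP, hZeq]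
    have e1 : CR * Q ^ (ε / 4) * Q ^ ((k : ℝ) / n) * (C₂ * Q ^ (1 + ε / 4))
        = CR * C₂ * (Q ^ (ε / 4 + (k : ℝ) / n + (1 + ε / 4))) := by
      have e0 : Q ^ (ε / 4 + (k : ℝ) / n + (1 + ε / 4))
          = Q ^ (ε / 4) * Q ^ ((k : ℝ) / n) * Q ^ (1 + ε / 4) := by
        rw [Real.rpow_add hQ0 (ε / 4 + (k : ℝ) / n), Real.rpow_add hQ0 (ε / 4)]
      rw [e0]; ring
    rw [e1]
    have e2 : (1 - δ) / n * (2 * k) = g + (ε / 4 + (k : ℝ) / n + (1 + ε / 4)) := by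
      rw [hg, hkn]; field_simp; ring
    rw [e2, Real.rpow_add hQ0 g]
    have h4 : (0 : ℝ) < 4 ^ (2 * k) := by positivity
    rw [div_div, le_div_iff₀ (by positivity)]
    have h5 := mul_le_mul_of_nonneg_right hQC
      (by positivity : 0 ≤ Q ^ (ε / 4 + (k : ℝ) / n + (1 + ε / 4)))
    refine le_trans (le_of_eq ?_) h5
    rw [hC₃]; ring
  have hTS : 0 ≤ (R * X ^ k) * S := by positivity
  have hfin := solve_J J Z (R * X ^ k) S P hJ0 hZ0 hmain hsmall hTS
  refine hfin.trans (le_of_eq ?_)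
  rw [hR, hXk, hS, hZeq, hC₄, hX]
  have e3 : ε / 4 + (A - 1 / n) * n + κ * n + 2 * (n + 1) * δ / n
      = (ε / 4 + (k : ℝ) / n + 1 / n + κ * n + A * n) - (1 - δ) / n * (2 * k) := by
    rw [hkn]; field_simp; ring
  rw [e3, Real.rpow_sub hQ0, Real.rpow_add hQ0, Real.rpow_add hQ0, Real.rpow_add hQ0,
    Real.rpow_add hQ0]
  have hne : Q ^ ((1 - δ) / n * (2 * k)) ≠ 0 := by positivity
  field_simp

end Pool.Agent.Work.MP_081200_nt
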