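import Pool.Agent.Work.MP_081200_nt.Imprim

set_option autoImplicit false

open Finset

namespace Pool.Agent.Work.MP_081200_nt

lemma inv_eq_conj (f : ℕ) [NeZero f] (χ : DirichletCharacter ℂ f) (m : ZMod f) :
    χ⁻¹ m = (starRingEnd ℂ) (χ m) := by
  rw [MulChar.inv_apply_eq_inv']
  by_cases hm : IsUnit m
  · have h1 : ‖χ m‖ = 1 := by
      rw [← hm.unit_spec]; exact DirichletCharacter.unit_norm_eq_one χ hm.unit
    exact Complex.inv_eq_conj h1
  · rw [MulChar.map_nonunit _ hm]; simp

/-- Quasi-orthogonality of primitive characters of distinct conductors along arithmetic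
progressions. -/
lemma quasi (ε : ℝ) (hε : 0 < ε) : ∃ C : ℝ, 1 ≤ C ∧
    ∀ (f f' : ℕ) (ψ : DirichletCharacter ℂ f) (ψ' : DirichletCharacter ℂ f'),
      f ≠ 0 → f' ≠ 0 → f ≠ f' → ψ.IsPrimitive → ψ'.IsPrimitive → ∀ (v : ℤ), IsCoprime v (f : ℤ) →
      IsCoprime v (f' : ℤ) → ∀ (b : ℤ) (n : ℕ),
      ‖∑ s ∈ range n, ψ ((b + v * s : ℤ) : ZMod f) *
        (starRingEnd ℂ) (ψ' ((b + v * s : ℤ) : ZMod f'))‖
        ≤ C * ((f : ℝ) * f') ^ (1 / 2 + ε) := by
  obtain ⟨C, hC, hpv⟩ := pv ε hε
  refine ⟨C, hC, ?_⟩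
  intro f f' ψ ψ' hf hf' hne hψ hψ' v hv hv' b n
  have : NeZero f := ⟨hf⟩
  have : NeZero f' := ⟨hf'⟩
  have : NeZero (f * f') := ⟨Nat.mul_ne_zero hf hf'⟩
  have hd1 : f ∣ f * f' := Nat.dvd_mul_right f f'
  have hd2 : f' ∣ f * f' := Nat.dvd_mul_left f' f
  set θ : DirichletCharacter ℂ (f * f') :=
    DirichletCharacter.changeLevel hd1 ψ * DirichletCharacter.changeLevel hd2 ψ'⁻¹ with hθ
  have happ : ∀ m : ℤ, θ (m : ZMod (f * f')) =
      ψ (m : ZMod f) * (starRingEnd ℂ) (ψ' (m : ZMod f')) := by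
    intro m
    by_cases hm : IsCoprime m ((f * f' : ℕ) : ℤ)
    · rw [hθ, MulChar.mul_apply, DirichletCharacter.changeLevel_eq_cast_of_dvd' ψ hd1 hm,
        DirichletCharacter.changeLevel_eq_cast_of_dvd' ψ'⁻¹ hd2 hm, inv_eq_conj]
    · rw [(DirichletCharacter.apply_eq_zero_iff θ m).2 hm]
      have h1 : ¬ IsCoprime m (f : ℤ) ∨ ¬ IsCoprime m (f' : ℤ) := by
        by_contra hcon
        push Not at hcon
        apply hm
        push_cast
        exact IsCoprime.mul_right hcon.1 hcon.2
      rcases h1 with h1 | h1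
      · rw [(DirichletCharacter.apply_eq_zero_iff ψ m).2 h1, zero_mul]
      · rw [(DirichletCharacter.apply_eq_zero_iff ψ' m).2 h1, map_zero, mul_zero]
  have hθ1 : θ ≠ 1 := by
    intro h
    apply hne
    have h1 : DirichletCharacter.changeLevel hd1 ψ = DirichletCharacter.changeLevel hd2 ψ' := by
      rw [hθ, map_inv] at h
      exact mul_inv_eq_one.1 h
    have h2 := congrArg DirichletCharacter.conductor h1
    rw [DirichletCharacter.conductor_changeLevel, DirichletCharacter.conductor_changeLevel] at h2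
    rw [DirichletCharacter.isPrimitive_def] at hψ hψ'
    rw [← hψ, ← hψ', h2]
  have hvv : IsCoprime v ((f * f' : ℕ) : ℤ) := by
    push_cast; exact IsCoprime.mul_right hv hv'
  obtain ⟨a1, b1, hab⟩ := hvv
  have hsum : ∑ s ∈ range n, ψ ((b + v * s : ℤ) : ZMod f) *
        (starRingEnd ℂ) (ψ' ((b + v * s : ℤ) : ZMod f'))
      = θ (v : ZMod (f * f')) * ∑ s ∈ range n, θ ((a1 * b + s : ℤ) : ZMod (f * f')) := by
    rw [mul_sum]
    apply sum_congr rfl
    intro s _
    rw [← happ, ← map_mul]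
    congr 1
    have h3 : (b + v * s : ℤ) = v * (a1 * b + s) + ((f * f' : ℕ) : ℤ) * (b1 * b) := by
      have : b = (a1 * v + b1 * ((f * f' : ℕ) : ℤ)) * b := by rw [hab, one_mul]
      linear_combination this
    rw [h3]
    push_cast
    have h4 : ((f : ZMod (f * f')) * (f' : ZMod (f * f'))) = 0 := by
      have := ZMod.natCast_self (f * f')
      push_cast at this
      exact this
    rw [h4]; ring
  rw [hsum, norm_mul]
  have h5 := hpv (f * f') θ (Nat.mul_ne_zero hf hf') hθ1 (a1 * b) n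
  push_cast at h5
  have h6 := DirichletCharacter.norm_le_one θ (v : ZMod (f * f'))
  calc ‖θ (v : ZMod (f * f'))‖ * ‖∑ s ∈ range n, θ ((a1 * b + s : ℤ) : ZMod (f * f'))‖
      ≤ 1 * (C * ((f : ℝ) * f') ^ (1 / 2 + ε)) := by
        apply mul_le_mul h6 _ (norm_nonneg _) (by norm_num)
        push_cast
        exact h5
    _ = C * ((f : ℝ) * f') ^ (1 / 2 + ε) := one_mul _

/-- Number of representations as a product of members of a progression. -/
lemma mult_bound (u v : ℤ) (hv : 1 ≤ v) (N k : ℕ) (m : ℤ) (hm : m ≠ 0) :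
    ((Fintype.piFinset (fun _ : Fin k => range N)).filter
      (fun t => ∏ i, (u + v * (t i : ℤ)) = m)).card ≤ (2 * m.natAbs.divisors.card) ^ k := by
  set W := (range N).filter (fun t : ℕ => (u + v * (t : ℤ)) ∣ m) with hW
  have hWc : W.card ≤ 2 * m.natAbs.divisors.card := by
    have h1 : W.card ≤ (m.natAbs.divisors ×ˢ (univ : Finset Bool)).card := by
      apply card_le_card_of_injOn (fun t : ℕ => ((u + v * (t : ℤ)).natAbs, decide (0 ≤ u + v * (t : ℤ))))
      · intro t ht
        rw [mem_coe, hW, mem_filter] at ht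
        rw [mem_coe, mem_product]
        refine ⟨?_, mem_univ _⟩
        rw [Nat.mem_divisors]
        exact ⟨Int.natAbs_dvd_natAbs.2 ht.2, Int.natAbs_ne_zero.2 hm⟩
      · intro s _ t _ hst
        simp only [Prod.mk.injEq, decide_eq_decide] at hst
        have h2 : u + v * (s : ℤ) = u + v * (t : ℤ) := by
          obtain ⟨h3, h4⟩ := hst
          omega
        have h3 : v * (s : ℤ) = v * (t : ℤ) := by linarith
        have h4 : (s : ℤ) = t := mul_left_cancel₀ (by omega) h3
        exact_mod_cast h4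
    rw [card_product, card_univ, Fintype.card_bool] at h1
    omega
  calc ((Fintype.piFinset (fun _ : Fin k => range N)).filter
      (fun t => ∏ i, (u + v * (t i : ℤ)) = m)).card
      ≤ (Fintype.piFinset (fun _ : Fin k => W)).card := by
        apply card_le_card
        intro t ht
        rw [mem_filter, Fintype.mem_piFinset] at ht
        rw [Fintype.mem_piFinset]
        intro i
        rw [hW, mem_filter]
        refine ⟨ht.1 i, ?_⟩
        rw [← ht.2]
        exact dvd_prod_of_mem _ (mem_univ i)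
    _ = W.card ^ k := by rw [Fintype.card_piFinset_const]
    _ ≤ (2 * m.natAbs.divisors.card) ^ k := Nat.pow_le_pow_left hWc k

end Pool.Agent.Work.MP_081200_nt
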