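import Pool.Agent.Work.MP_081200_nt.One

set_option autoImplicit false

open Finset

namespace Pool.Agent.Work.MP_081200_nt

/-- Sums over a discretised progression control all sums. -/
lemma discretise (h : ℤ → ℂ) (hh : ∀ x, ‖h x‖ ≤ 1) (D : ℕ) (hD : 0 < D) (j : ℤ) (N : ℕ) (B : ℝ)
    (hB : ‖∑ t ∈ range (D * (N / D)), h ((D : ℤ) * (j / D) + t)‖ ≤ B) :
    ‖∑ t ∈ range N, h (j + t)‖ ≤ B + 3 * D := by
  have hDz : (0 : ℤ) < D := by exact_mod_cast hD
  set i := j / (D : ℤ) with hi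
  set r : ℕ := (j % (D : ℤ)).toNat with hr
  have hrz : (r : ℤ) = j % (D : ℤ) := by
    rw [hr]; exact Int.toNat_of_nonneg (Int.emod_nonneg _ hDz.ne')
  have hrD : r < D := by
    have := Int.emod_lt_of_pos j hDz
    rw [← hrz] at this; exact_mod_cast this
  have hj : j = D * i + r := by
    rw [hrz, hi]; exact (Int.mul_ediv_add_emod j D).symm
  set l := N / D with hl
  have hN : D * l ≤ N := Nat.mul_div_le N D
  have hN2 : N < D * l + D := by
    rw [hl]; have := Nat.lt_mul_div_succ N hD; rw [Nat.mul_succ] at this; exact this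
  set g : ℕ → ℂ := fun t => h ((D : ℤ) * i + t) with hg
  have e1 : ∑ t ∈ range (r + N), g t = ∑ t ∈ range r, g t + ∑ t ∈ range N, h (j + t) := by
    rw [sum_range_add]
    congr 1
    apply sum_congr rfl; intro t _
    rw [hg]; simp only
    rw [hj]; push_cast; congr 1; ring
  obtain ⟨w, hw⟩ : ∃ w, r + N = D * l + w := ⟨r + N - D * l, by omega⟩
  have hwD : w ≤ 2 * D := by omega
  have e2 : ∑ t ∈ range (r + N), g t = ∑ t ∈ range (D * l), g t
      + ∑ t ∈ range w, g (D * l + t) := by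
    rw [hw, sum_range_add]
  have e3 : ∑ t ∈ range N, h (j + t) = ∑ t ∈ range (D * l), g t
      + ∑ t ∈ range w, g (D * l + t) - ∑ t ∈ range r, g t := by
    rw [← e2, e1]; ring
  have e4 : ‖∑ t ∈ range w, g (D * l + t)‖ ≤ w := by
    calc ‖∑ t ∈ range w, g (D * l + t)‖ ≤ ∑ t ∈ range w, (1 : ℝ) :=
          norm_sum_le_of_le _ (fun t _ => hh _)
      _ = w := by simp
  have e5 : ‖∑ t ∈ range r, g t‖ ≤ r := by
    calc ‖∑ t ∈ range r, g t‖ ≤ ∑ t ∈ range r, (1 : ℝ) :=
          norm_sum_le_of_le _ (fun t _ => hh _)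
      _ = r := by simp
  rw [e3]
  have hwR : (w : ℝ) ≤ 2 * D := by exact_mod_cast hwD
  have hrR : (r : ℝ) ≤ D := by exact_mod_cast hrD.le
  calc ‖∑ t ∈ range (D * l), g t + ∑ t ∈ range w, g (D * l + t) - ∑ t ∈ range r, g t‖
      ≤ ‖∑ t ∈ range (D * l), g t‖ + ‖∑ t ∈ range w, g (D * l + t)‖ + ‖∑ t ∈ range r, g t‖ :=
        (norm_sub_le _ _).trans (by gcongr; exact norm_add_le _ _)
    _ ≤ B + w + r := by gcongr
    _ ≤ B + 3 * D := by linarith

/-- The exceptional set. -/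
lemma exists_E (n : ℕ) (hn : 1 ≤ n) (κ A δ ε : ℝ) (hκ : 0 ≤ κ) (hA : (1 : ℝ) / n ≤ A)
    (hε : 0 < ε) (hδ : 0 < δ) (hδ1 : δ < 1)
    (hcond : 2 * (n + 1) * δ / n + ε / 2 < 1 / n) :
    ∃ C Q₀ : ℝ, 0 ≤ C ∧ 1 ≤ Q₀ ∧ ∀ Q : ℝ, Q₀ ≤ Q → ∃ E : Finset ℕ,
      (E.card : ℝ) ≤ C * Q ^ (ε / 4 + (n + 2) * κ + (n + 1) * (A - 1 / n) + (2 * n + 4) * δ / n) ∧
      ∀ (f : ℕ) (ψ : DirichletCharacter ℂ f), 2 ≤ f → (f : ℝ) ≤ Q → f ∉ E → ψ.IsPrimitive →
        ∀ v : ℤ, 1 ≤ v → (v : ℝ) ≤ Q ^ κ → IsCoprime v (f : ℤ) →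
        ∀ u : ℤ, |(u : ℝ)| ≤ 2 * v * Q ^ A → ∀ N : ℕ, (N : ℝ) ≤ Q ^ ((1 : ℝ) / n) →
          ‖∑ t ∈ range N, ψ ((u + v * t : ℤ) : ZMod f)‖ ≤ Q ^ ((1 - δ) / n) := by
  classical
  have hn0 : (0 : ℝ) < n := by exact_mod_cast hn
  obtain ⟨C, Q₁, hC, hQ₁, hone⟩ := count_one n hn κ A δ ε hκ hA hε hcond
  have hρ : 0 < (1 - δ) / n := div_pos (by linarith) hn0
  refine ⟨918 * C, max Q₁ ((8 : ℝ) ^ (1 / ((1 - δ) / n))), by positivity,
    hQ₁.trans (le_max_left _ _), ?_⟩
  intro Q hQ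
  have hQ1 : 1 ≤ Q := hQ₁.trans ((le_max_left _ _).trans hQ)
  have hQ0 : 0 < Q := by linarith
  set V₀ : ℝ := Q ^ ((1 - δ) / n) with hV₀
  have hV8 : 8 ≤ V₀ := by
    have h1 : (8 : ℝ) ^ (1 / ((1 - δ) / n)) ≤ Q := (le_max_right _ _).trans hQ
    calc (8 : ℝ) = ((8 : ℝ) ^ (1 / ((1 - δ) / n))) ^ ((1 - δ) / n) := by
          rw [← Real.rpow_mul (by norm_num), one_div, inv_mul_cancel₀ hρ.ne', Real.rpow_one]
      _ ≤ V₀ := Real.rpow_le_rpow (by positivity) h1 hρ.le
  set X : ℝ := Q ^ ((1 : ℝ) / n) with hX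
  set a : ℝ := Q ^ A with ha
  have hXa : X ≤ a := Real.rpow_le_rpow_of_exponent_le hQ1 hA
  have hVX : V₀ ≤ X := by
    apply Real.rpow_le_rpow_of_exponent_le hQ1
    apply div_le_div_of_nonneg_right _ hn0.le; linarith
  have hk1 : 1 ≤ Q ^ κ := Real.one_le_rpow hQ1 hκ
  set D : ℕ := ⌊V₀ / 4⌋₊ with hD
  have hD1 : (D : ℝ) ≤ V₀ / 4 := Nat.floor_le (by positivity)
  have hD2 : V₀ / 8 ≤ D := by
    have := Nat.lt_floor_add_one (V₀ / 4)
    rw [← hD] at this
    linarith
  have hD0R : (0 : ℝ) < D := by linarith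
  have hD0 : 0 < D := by exact_mod_cast hD0R
  set K : ℕ := ⌊Q ^ κ⌋₊ with hK
  have hKR : (K : ℝ) ≤ Q ^ κ := Nat.floor_le (by positivity)
  set I : ℕ := ⌊(2 * a + 1) / D⌋₊ + 1 with hI
  set Lm : ℕ := ⌊X / D⌋₊ with hLm
  set Par : Finset (ℕ × ℕ × ℤ × ℕ) :=
    (Icc 1 K) ×ˢ (range (K + 1)) ×ˢ (Icc (-(I : ℤ)) I) ×ˢ (range (Lm + 1)) with hPar
  set isBad : (ℕ × ℕ × ℤ × ℕ) → ℕ → Prop := fun p f =>
    ∃ ψ : DirichletCharacter ℂ f, ψ.IsPrimitive ∧
      V₀ / 4 ≤ ‖∑ t ∈ range (D * p.2.2.2),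
        ψ (((p.2.1 : ℤ) + p.1 * ((D : ℤ) * p.2.2.1) + p.1 * t : ℤ) : ZMod f)‖ with hisBad
  set Ep : (ℕ × ℕ × ℤ × ℕ) → Finset ℕ := fun p =>
    (Icc 2 ⌊Q⌋₊).filter (fun f => p.2.1 < p.1 ∧ IsCoprime (p.1 : ℤ) (f : ℤ) ∧ isBad p f) with hEp
  set E : Finset ℕ := Par.biUnion Ep with hE
  refine ⟨E, ?_, ?_⟩
  · -- counting
    have hEpcard : ∀ p ∈ Par, ((Ep p).card : ℝ)
        ≤ C * Q ^ (ε / 4 + (A - 1 / n) * n + κ * n + 2 * (n + 1) * δ / n) := by
      rintro ⟨v, u₀, i, l⟩ hp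
      simp only [hPar, mem_product, mem_Icc, mem_range] at hp
      obtain ⟨⟨hv1, hvK⟩, hu0, ⟨hi1, hi2⟩, hl⟩ := hp
      by_cases huv : u₀ < v
      · have hvR : (v : ℝ) ≤ Q ^ κ := (by exact_mod_cast hvK : (v : ℝ) ≤ K).trans hKR
        have hvR1 : (1 : ℝ) ≤ v := by exact_mod_cast hv1
        have hiR : |(i : ℝ)| ≤ I := by
          rw [abs_le]; constructor
          · exact_mod_cast hi1
          · exact_mod_cast hi2
        have hIR : (I : ℝ) ≤ (2 * a + 1) / D + 1 := by
          rw [hI]; push_cast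
          have := Nat.floor_le (show 0 ≤ (2 * a + 1) / D by positivity)
          linarith
        have hDI : (D : ℝ) * I ≤ 2 * a + 1 + D := by
          calc (D : ℝ) * I ≤ D * ((2 * a + 1) / D + 1) := mul_le_mul_of_nonneg_left hIR hD0R.le
            _ = 2 * a + 1 + D := by field_simp
        have hua : |(((u₀ : ℤ) + (v : ℤ) * ((D : ℤ) * i) : ℤ) : ℝ)| ≤ 4 * ((v : ℤ) : ℝ) * Q ^ A := by
          push_cast
          have h1 : |(u₀ : ℝ) + v * (D * i)| ≤ u₀ + v * (D * I) := by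
            calc |(u₀ : ℝ) + v * (D * i)| ≤ |(u₀ : ℝ)| + |(v : ℝ) * (D * i)| := abs_add_le _ _
              _ = u₀ + v * (D * |(i : ℝ)|) := by
                  rw [abs_mul, abs_mul, abs_of_nonneg (by positivity : (0:ℝ) ≤ u₀),
                    abs_of_nonneg (by positivity : (0:ℝ) ≤ v),
                    abs_of_nonneg (by positivity : (0:ℝ) ≤ D)]
              _ ≤ u₀ + v * (D * I) := by gcongr
          have h2 : (u₀ : ℝ) ≤ v := by exact_mod_cast huv.le
          have h3 : (v : ℝ) * (D * I) ≤ v * (2 * a + 1 + D) :=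
            mul_le_mul_of_nonneg_left hDI (by positivity)
          have h4 : (1 : ℝ) + (2 * a + 1 + D) ≤ 4 * a := by linarith
          have h5 : (v : ℝ) * (1 + (2 * a + 1 + D)) ≤ v * (4 * a) :=
            mul_le_mul_of_nonneg_left h4 (by positivity)
          calc |(u₀ : ℝ) + v * (D * i)| ≤ v + v * (2 * a + 1 + D) := by linarith
            _ = v * (1 + (2 * a + 1 + D)) := by ring
            _ ≤ v * (4 * a) := h5
            _ = 4 * v * a := by ring
        have hNX : ((D * l : ℕ) : ℝ) ≤ X := by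
          push_cast
          have h1 : (l : ℝ) ≤ X / D := by
            have h2 : l ≤ Lm := by omega
            have h3 : (l : ℝ) ≤ Lm := by exact_mod_cast h2
            exact h3.trans (Nat.floor_le (by positivity))
          calc (D : ℝ) * l ≤ D * (X / D) := mul_le_mul_of_nonneg_left h1 hD0R.le
            _ = X := by field_simp
        have := hone Q ((le_max_left _ _).trans hQ) (v : ℤ) (by omega) (by push_cast; exact hvR)
          ((u₀ : ℤ) + (v : ℤ) * ((D : ℤ) * i)) hua (D * l) hNX (Ep (v, u₀, i, l))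
          (fun f => if h : isBad (v, u₀, i, l) f then h.choose else 1) (by
            intro f hf
            rw [hEp] at hf
            simp only [mem_filter, mem_Icc] at hf
            obtain ⟨⟨hf1, hf2⟩, _, hf3, hf4⟩ := hf
            refine ⟨hf1, ?_, hf3, ?_⟩
            · calc (f : ℝ) ≤ (⌊Q⌋₊ : ℝ) := by exact_mod_cast hf2
                _ ≤ Q := Nat.floor_le hQ0.le
            · rw [dif_pos hf4]
              exact hf4.choose_spec)
        exact this
      · have : Ep (v, u₀, i, l) = ∅ := by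
          rw [hEp]
          simp only
          rw [filter_eq_empty_iff]
          intro f _ h
          exact huv h.1
        rw [this]
        simp only [card_empty, Nat.cast_zero]
        positivity
    have hParcard : ((Par.card : ℕ) : ℝ) ≤ 918 * Q ^ (2 * κ + (A - 1 / n) + 2 * δ / n) := by
      have h1 : Par.card = K * ((K + 1) * ((2 * I + 1) * (Lm + 1))) := by
        rw [hPar, card_product, card_product, card_product, Nat.card_Icc, card_range, card_range,
          Int.card_Icc]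
        congr 3
        congr 1
        omega
      have hIR : (2 * (I : ℝ) + 1) ≤ 51 * (a / V₀) := by
        have h2 : (I : ℝ) ≤ (2 * a + 1) / D + 1 := by
          rw [hI]; push_cast
          have := Nat.floor_le (show 0 ≤ (2 * a + 1) / D by positivity)
          linarith
        have h3 : (2 * a + 1) / D ≤ 24 * (a / V₀) := by
          calc (2 * a + 1) / D ≤ (3 * a) / (V₀ / 8) := by
                apply div_le_div₀ (by positivity) (by linarith) (by positivity) hD2
            _ = 24 * (a / V₀) := by field_simp; ring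
        have h4 : 1 ≤ a / V₀ := by rw [one_le_div (by positivity)]; linarith
        linarith
      have hLR : ((Lm : ℝ) + 1) ≤ 9 * (X / V₀) := by
        have h2 : (Lm : ℝ) ≤ X / D := Nat.floor_le (by positivity)
        have h3 : X / D ≤ 8 * (X / V₀) := by
          calc X / D ≤ X / (V₀ / 8) := by
                apply div_le_div_of_nonneg_left (by positivity) (by positivity) hD2
            _ = 8 * (X / V₀) := by field_simp
        have h4 : 1 ≤ X / V₀ := by rw [one_le_div (by positivity)]; linarith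
        linarith
      rw [h1]
      push_cast
      have hKK : (K : ℝ) + 1 ≤ 2 * Q ^ κ := by linarith
      calc (K : ℝ) * ((K + 1) * ((2 * I + 1) * (Lm + 1)))
          ≤ Q ^ κ * ((2 * Q ^ κ) * ((51 * (a / V₀)) * (9 * (X / V₀)))) := by
            gcongr
        _ = 918 * (Q ^ κ * Q ^ κ * (a * X / (V₀ * V₀))) := by field_simp; ring
        _ = 918 * Q ^ (2 * κ + (A - 1 / n) + 2 * δ / n) := by
            congr 1
            rw [ha, hX, hV₀, ← Real.rpow_add hQ0, ← Real.rpow_add hQ0, ← Real.rpow_add hQ0,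
              ← Real.rpow_sub hQ0, ← Real.rpow_add hQ0]
            congr 1
            field_simp; ring
    calc ((E.card : ℕ) : ℝ) ≤ ∑ p ∈ Par, ((Ep p).card : ℝ) := by
          rw [hE]; exact_mod_cast card_biUnion_le
      _ ≤ ∑ p ∈ Par, C * Q ^ (ε / 4 + (A - 1 / n) * n + κ * n + 2 * (n + 1) * δ / n) :=
          sum_le_sum hEpcard
      _ = (Par.card : ℝ) * (C * Q ^ (ε / 4 + (A - 1 / n) * n + κ * n + 2 * (n + 1) * δ / n)) := by
          rw [sum_const, nsmul_eq_mul]
      _ ≤ (918 * Q ^ (2 * κ + (A - 1 / n) + 2 * δ / n)) *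
          (C * Q ^ (ε / 4 + (A - 1 / n) * n + κ * n + 2 * (n + 1) * δ / n)) :=
          mul_le_mul_of_nonneg_right hParcard (by positivity)
      _ = 918 * C * Q ^ (ε / 4 + (n + 2) * κ + (n + 1) * (A - 1 / n) + (2 * n + 4) * δ / n) := by
          have : ε / 4 + (n + 2) * κ + (n + 1) * (A - 1 / n) + (2 * n + 4) * δ / n
              = (2 * κ + (A - 1 / n) + 2 * δ / n) +
                (ε / 4 + (A - 1 / n) * n + κ * n + 2 * (n + 1) * δ / n) := by
            field_simp; ring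
          rw [this, Real.rpow_add hQ0 (2 * κ + (A - 1 / n) + 2 * δ / n)]; ring
  · intro f ψ hf2 hfQ hfE hψ v hv hvQ hvf u hu N hN
    have hv0R : (0 : ℝ) < v := by exact_mod_cast (by omega : 0 < v)
    obtain ⟨vn, rfl⟩ : ∃ vn : ℕ, v = vn := ⟨v.toNat, (Int.toNat_of_nonneg (by omega)).symm⟩
    have hvn1 : 1 ≤ vn := by omega
    have hvnK : vn ≤ K := by
      rw [hK]; apply Nat.le_floor; push_cast at hvQ; exact hvQ
    set j := u / (vn : ℤ) with hj
    set u₀ : ℕ := (u % (vn : ℤ)).toNat with hu₀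
    have hvz : (0 : ℤ) < vn := by omega
    have hu₀z : (u₀ : ℤ) = u % (vn : ℤ) := by
      rw [hu₀]; exact Int.toNat_of_nonneg (Int.emod_nonneg _ hvz.ne')
    have hu₀v : u₀ < vn := by
      have := Int.emod_lt_of_pos u hvz
      rw [← hu₀z] at this; exact_mod_cast this
    have huj : u = u₀ + vn * j := by
      rw [hu₀z, hj]; have := Int.mul_ediv_add_emod u vn; linarith
    set h : ℤ → ℂ := fun x => ψ (((u₀ : ℤ) + vn * x : ℤ) : ZMod f) with hh
    have hsum : ∑ t ∈ range N, ψ ((u + (vn : ℤ) * t : ℤ) : ZMod f) = ∑ t ∈ range N, h (j + t) := by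
      apply sum_congr rfl; intro t _
      rw [hh]; simp only
      congr 1
      rw [huj]; push_cast; ring
    rw [hsum]
    have hjR : |(j : ℝ)| ≤ 2 * a + 1 := by
      have h1 : (vn : ℝ) * |(j : ℝ)| ≤ vn * (2 * a + 1) := by
        have h2 : (vn : ℝ) * (j : ℝ) = u - u₀ := by
          have := congrArg (fun z : ℤ => (z : ℝ)) huj
          push_cast at this; linarith
        have h3 : (vn : ℝ) * |(j : ℝ)| = |(u : ℝ) - u₀| := by
          rw [← h2, abs_mul, abs_of_nonneg (by positivity : (0:ℝ) ≤ vn)]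
        rw [h3]
        have h4 : |(u : ℝ) - u₀| ≤ |(u : ℝ)| + |(u₀ : ℝ)| := abs_sub _ _
        have h5 : |(u₀ : ℝ)| ≤ vn := by
          rw [abs_of_nonneg (by positivity)]; exact_mod_cast hu₀v.le
        push_cast at hu
        linarith
      exact le_of_mul_le_mul_left h1 (by exact_mod_cast hvn1)
    have hDz : (0 : ℤ) < D := by exact_mod_cast hD0
    have hiI : |j / (D : ℤ)| ≤ (I : ℤ) := by
      have h1 : (D : ℤ) * (j / (D : ℤ)) ≤ j := Int.mul_ediv_self_le hDz.ne'
      have h2 : j < D * (j / (D : ℤ)) + D := by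
        have := Int.lt_mul_ediv_self_add (x := j) hDz
        linarith
      have h3 : |((j / (D : ℤ) : ℤ) : ℝ)| ≤ (2 * a + 1) / D + 1 := by
        have h1R : (D : ℝ) * ((j / (D : ℤ) : ℤ) : ℝ) ≤ j := by exact_mod_cast h1
        have h2R : (j : ℝ) < D * ((j / (D : ℤ) : ℤ) : ℝ) + D := by exact_mod_cast h2
        rw [abs_le] at hjR ⊢
        have e : (D : ℝ) * ((2 * a + 1) / D) = 2 * a + 1 := by field_simp
        constructor
        · have h6 : (D : ℝ) * (-((2 * a + 1) / D + 1)) ≤ D * ((j / (D : ℤ) : ℤ) : ℝ) := by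
            have : (D : ℝ) * (-((2 * a + 1) / D + 1)) = -(2 * a + 1) - D := by
              rw [mul_neg, mul_add, e]; ring
            rw [this]; linarith
          exact le_of_mul_le_mul_left h6 hD0R
        · have h6 : (D : ℝ) * ((j / (D : ℤ) : ℤ) : ℝ) ≤ D * ((2 * a + 1) / D + 1) := by
            have : (D : ℝ) * ((2 * a + 1) / D + 1) = 2 * a + 1 + D := by
              rw [mul_add, e]; ring
            rw [this]; linarith
          exact le_of_mul_le_mul_left h6 hD0R
      have h4 : ((|j / (D : ℤ)| : ℤ) : ℝ) < (I : ℝ) + 1 := by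
        push_cast
        have h5 : (2 * a + 1) / D < I := by
          rw [hI]; push_cast; exact Nat.lt_floor_add_one _
        have h3' : |((j / (D : ℤ) : ℤ) : ℝ)| < (I : ℝ) + 1 := by linarith
        exact h3'
      have h5 : |j / (D : ℤ)| < (I : ℤ) + 1 := by exact_mod_cast h4
      omega
    have hlL : N / D ≤ Lm := by
      rw [hLm]
      apply Nat.le_floor
      calc ((N / D : ℕ) : ℝ) ≤ (N : ℝ) / D := Nat.cast_div_le
        _ ≤ X / D := div_le_div_of_nonneg_right hN hD0R.le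
    have hB : ‖∑ t ∈ range (D * (N / D)), h ((D : ℤ) * (j / D) + t)‖ ≤ V₀ / 4 := by
      by_contra hcon
      push Not at hcon
      apply hfE
      rw [hE, mem_biUnion]
      refine ⟨(vn, u₀, j / (D : ℤ), N / D), ?_, ?_⟩
      · simp only [hPar, mem_product, mem_Icc, mem_range]
        rw [abs_le] at hiI
        exact ⟨⟨hvn1, hvnK⟩, by omega, hiI, by omega⟩
      · rw [hEp]
        simp only [mem_filter, mem_Icc]
        refine ⟨⟨hf2, Nat.le_floor hfQ⟩, hu₀v, hvf, ?_⟩
        refine ⟨ψ, hψ, ?_⟩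
        refine hcon.le.trans (le_of_eq ?_)
        congr 1
        apply sum_congr rfl; intro t _
        rw [hh]; simp only
        congr 1
        push_cast; ring
    have := discretise h (fun x => DirichletCharacter.norm_le_one _ _) D hD0 j N (V₀ / 4) hB
    linarith

end Pool.Agent.Work.MP_081200_nt
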